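import Pool.Agent.K1H17.LP.Stm2
import Pool.Agent.W619.Y.Stm6

/-! Abelian covers of products of projective lines: the definitions. -/

set_option autoImplicit false
set_option linter.overlappingInstances false

open FF Polynomial Pool.Agent.W619.PQ Pool.Agent.W619.TW Pool.Agent.W619.Y

namespace Pool.Agent.K1H17.LP

/-- `L` is the field of rational functions of an abelian cover of the product of `r` projective
lines with the coordinates `x i`, given by the equations
`z j ^ m j = ∏ i, (f i 0 (x i)) ^ A j i 0 * (f i 1 (x i)) ^ A j i 1` (`j < s`), where for each `i` the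
nonconstant polynomials `f i 0`, `f i 1` have only simple zeros and no common zeros, and `m j`
divides `A j i 0 * deg (f i 0) + A j i 1 * deg (f i 1)`. So the cover is branched only over the
fibres of the projections over the zeros of the `f i 0` and `f i 1`. -/
structure IsLineCover {k L : Type} [Field k] [Field L] [Algebra k L] {r s : ℕ} (x : Fin r → L)
    (f : Fin r → Fin 2 → k[X]) (A : Fin s → Fin r → Fin 2 → ℤ) (m : Fin s → ℕ) (z : Fin s → L) :
    Prop where
  total : Algebra.trdeg k L = r
  indep : AlgebraicIndependent k x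
  deg : ∀ i c, 1 ≤ (f i c).natDegree
  sqf : ∀ i, Squarefree (f i 0 * f i 1)
  pos : ∀ j, 0 < m j
  root : ∀ j, z j ^ m j = ∏ i, ∏ c, aeval (x i) (f i c) ^ A j i c
  dvd : ∀ j i, (m j : ℤ) ∣ ∑ c, A j i c * (f i c).natDegree
  gen : IntermediateField.adjoin k (Set.range x ∪ Set.range z) = ⊤

section

variable {r s : ℕ}

/-- The nonzero families `v` of natural numbers such that for each `i` at most one of the numbers
`v i 0` and `v i 1` is not `0`, and `m j` divides `∑ i, (A j i 0 * v i 0 + A j i 1 * v i 1)` for all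
`j`: the multiplicities of the branch divisors along the prime divisors over the cover. -/
def Adm (A : Fin s → Fin r → Fin 2 → ℤ) (m : Fin s → ℕ) (v : Fin r → Fin 2 → ℕ) : Prop :=
  v ≠ 0 ∧ (∀ i, v i 0 = 0 ∨ v i 1 = 0) ∧ ∀ j, (m j : ℤ) ∣ ∑ i, ∑ c, A j i c * v i c

/-- The polytope: the rational points `y` with
`d i 0 * y i 0 + d i 1 * y i 1 = d i 0 + d i 1 - 2` for all `i`, and `∑ i, ∑ c, v i c * y i c ≥ 1` for
all admissible `v`. -/
def Polytope (A : Fin s → Fin r → Fin 2 → ℤ) (m : Fin s → ℕ) (d : Fin r → Fin 2 → ℕ) :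
    Set (Fin r → Fin 2 → ℚ) :=
  {y | (∀ i, ∑ c, (d i c : ℚ) * y i c = ∑ c, (d i c : ℚ) - 2) ∧
    ∀ v, Adm A m v → 1 ≤ ∑ i, ∑ c, (v i c : ℚ) * y i c}

/-- The dimension of the affine span of a set. -/
noncomputable def affDim (P : Set (Fin r → Fin 2 → ℚ)) : ℕ := Module.finrank ℚ (vectorSpan ℚ P)

end

end Pool.Agent.K1H17.LP
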