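import Pool.Agent.K1H17.LP.Main
import Pool.Agent.K1H69.LP.Plc

/-! Abelian covers of products of lines: the final statement without hypotheses. -/

set_option autoImplicit false
set_option linter.overlappingInstances false

open FF Polynomial Pool.Agent.W619.TW Pool.Agent.K1H17.IS Pool.Agent.K1H17.TP

namespace Pool.Agent.K1H17.LP

section

variable {k : Type} [Field k] [CharZero k] [IsAlgClosed k] {L : Type} [Field L] [Algebra k L]
  {r s : ℕ} {x : Fin r → L} {f : Fin r → Fin 2 → k[X]} {A : Fin s → Fin r → Fin 2 → ℤ}
  {m : Fin s → ℕ} {z : Fin s → L}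

/-- The Kodaira dimension and the numerical dimension of an abelian cover of a product of lines are
the dimension of the polytope, and `-∞` if the polytope is empty. -/
theorem IsLineCover.main (hc : IsLineCover x f A m z) :
    (Polytope A m (fun i c => (f i c).natDegree) = ∅ ∧ NumNeg k L r (fun _ => False)) ∨
    ((Polytope A m (fun i c => (f i c).natDegree)).Nonempty ∧
      KodNum k L r (affDim (Polytope A m fun i c => (f i c).natDegree))) :=
  hc.main0 Pool.Agent.K1H69.LP.t_PLC Pool.Agent.K1H69.LP.t_MUL

end

end Pool.Agent.K1H17.LP
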