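import Pool.Agent.K1H17.LP.Ub2
import Pool.Agent.K1H17.TP.Rm
import Pool.Agent.K1H17.IS.Fm

/-! Abelian covers of products of lines: the numerical dimension. -/

set_option autoImplicit false
set_option linter.overlappingInstances false
set_option linter.unusedSectionVars false
set_option linter.unusedVariables false

open FF IntermediateField Polynomial Pool.Agent.W619.PQ Pool.Agent.W619.PL Pool.Agent.W619.TW
  Pool.Agent.W603.LV Pool.Agent.W619.Y Pool.Agent.W672.PG Pool.Agent.W824.PG Pool.Agent.Y174
  Pool.Agent.K1H17.IS Pool.Agent.K1H17.TP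

namespace Pool.Agent.K1H17.LP

section

variable {k : Type} [Field k] [CharZero k] [IsAlgClosed k] {L : Type} [Field L] [Algebra k L]

/-- the coordinate of the line -/
def lgen (a : L) : ↥(IntermediateField.adjoin k {a}) :=
  ⟨a, IntermediateField.mem_adjoin_simple_self k a⟩

theorem line_of {a : L} (ha : Transcendental k a) : IsLine k (lgen (k := k) a) := by
  refine ⟨fun h => ha ?_, ?_⟩
  · exact (isAlgebraic_algebraMap_iff
      (algebraMap ↥(IntermediateField.adjoin k {a}) L).injective).2 h
  · apply IntermediateField.lift_injective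
    rw [IntermediateField.lift_adjoin_simple, IntermediateField.lift_top]
    rfl

theorem mult_eq {f : Fin 2 → k[X]} (hsq : Squarefree (f 0 * f 1)) (hf : ∀ c, f c ≠ 0) {a : k}
    {c : Fin 2} (ha : (f c).IsRoot a) (c' : Fin 2) :
    (f c').rootMultiplicity a = if c' = c then 1 else 0 := by
  have h0 : f 0 * f 1 ≠ 0 := mul_ne_zero (hf 0) (hf 1)
  have h1 : (f 0 * f 1).rootMultiplicity a ≤ 1 := by
    by_contra h
    push Not at h
    have h2 : (Polynomial.X - C a) ^ 2 ∣ f 0 * f 1 :=
      (Polynomial.le_rootMultiplicity_iff h0).1 h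
    rw [pow_two] at h2
    have h3 := hsq _ h2
    exact Polynomial.not_isUnit_X_sub_C a h3
  rw [Polynomial.rootMultiplicity_mul h0] at h1
  have h2 := (Polynomial.rootMultiplicity_pos (hf c)).2 ha
  rcases (by omega : c = 0 ∨ c = 1) with rfl | rfl <;>
    rcases (by omega : c' = 0 ∨ c' = 1) with rfl | rfl <;>
    first
      | (rw [if_pos rfl]; omega)
      | (rw [if_neg (by decide)]; omega)

variable {r s : ℕ} {x : Fin r → L} {f : Fin r → Fin 2 → k[X]} {A : Fin s → Fin r → Fin 2 → ℤ}
  {m : Fin s → ℕ} {z : Fin s → L}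

/-- the fields of the factors -/
abbrev MM (k : Type) {L : Type} [Field k] [Field L] [Algebra k L] {r : ℕ} (x : Fin r → L)
    (i : Fin r) : IntermediateField k L := IntermediateField.adjoin k {x i}

theorem IsLineCover.f_ne (h : IsLineCover x f A m z) (i c) : f i c ≠ 0 := by
  intro h0
  have := h.deg i c
  rw [h0, natDegree_zero] at this
  omega

theorem IsLineCover.tr (h : IsLineCover x f A m z) (i) : Transcendental k (x i) :=
  h.indep.transcendental i

theorem IsLineCover.line (h : IsLineCover x f A m z) (i) :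
    IsLine k (lgen (k := k) (x i)) := line_of (h.tr i)

theorem IsLineCover.aev_ne (h : IsLineCover x f A m z) (i c) : aeval (x i) (f i c) ≠ 0 :=
  fun h0 => h.f_ne i c (transcendental_iff.1 (h.tr i) _ h0)

theorem iSup_MM (x : Fin r → L) : (⨆ i, MM k x i) = IntermediateField.adjoin k (Set.range x) := by
  apply le_antisymm
  · refine iSup_le fun i => IntermediateField.adjoin_le_iff.2 ?_
    rintro _ rfl
    exact IntermediateField.subset_adjoin k _ ⟨i, rfl⟩
  · refine IntermediateField.adjoin_le_iff.2 ?_
    rintro _ ⟨i, rfl⟩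
    exact (le_iSup (MM k x) i) (IntermediateField.mem_adjoin_simple_self k (x i))

theorem IsLineCover.top (h : IsLineCover x f A m z) :
    (⨆ i, MM k x i) ⊔ IntermediateField.adjoin k (Set.range z) = ⊤ := by
  rw [iSup_MM, ← h.gen, eq_comm, IntermediateField.adjoin_union]

theorem IsLineCover.z_ne (h : IsLineCover x f A m z) (j : Fin s) : z j ≠ 0 := by
  intro h0
  have h1 := h.root j
  rw [h0, zero_pow (h.pos j).ne'] at h1
  exact Finset.prod_ne_zero_iff.2 (fun i _ => Finset.prod_ne_zero_iff.2 fun c _ =>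
    zpow_ne_zero _ (h.aev_ne i c)) h1.symm

theorem IsLineCover.aev_mem (h : IsLineCover x f A m z) (i c) :
    aeval (x i) (f i c) ∈ MM k x i := by
  have h1 : aeval (x i) (f i c) = (aeval (lgen (k := k) (x i)) (f i c) : MM k x i) := by
    rw [← IntermediateField.coe_val, ← Polynomial.aeval_algHom_apply]
    rfl
  rw [h1]
  exact (aeval (lgen (k := k) (x i)) (f i c) : MM k x i).2

theorem IsLineCover.root_mem (h : IsLineCover x f A m z) (j : Fin s) :
    z j ^ m j ∈ (⨆ i, MM k x i) := by
  rw [h.root]
  exact prod_mem fun i _ => prod_mem fun c _ => zpow_mem (le_iSup (MM k x) i (h.aev_mem i c)) _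

theorem IsLineCover.galois (h : IsLineCover x f A m z) :
    FiniteDimensional ↥(⨆ i, MM k x i) L ∧ IsGalois ↥(⨆ i, MM k x i) L := by
  refine Pool.Agent.TH122.AB.galois_of_roots (⨆ i, MM k x i) (S := Set.range z)
    (Set.finite_range z) (fun L' h1 h2 => ?_) (M := ∏ j, m j)
    (Finset.prod_pos fun j _ => h.pos j) ?_
  · rw [eq_top_iff, ← h.top]
    exact sup_le h1 (IntermediateField.adjoin_le_iff.2 h2)
  · rintro _ ⟨j, rfl⟩
    obtain ⟨c, hc⟩ := Finset.dvd_prod_of_mem m (Finset.mem_univ j)
    rw [hc, pow_mul]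
    exact pow_mem (h.root_mem j) _

theorem IsLineCover.alg (h : IsLineCover x f A m z) :
    Algebra.IsAlgebraic ↥(⨆ i, MM k x i) L := by
  have := h.galois.1
  infer_instance

theorem IsLineCover.essL (h : IsLineCover x f A m z) : Algebra.EssFiniteType k L := by
  have h1 : Algebra.EssFiniteType k ↥(⨆ i, MM k x i) :=
    essFiniteType_iff.2 (fg_iSup fun j => essFiniteType_iff.1 (line_ess (h.line j)))
  have := h.galois.1
  exact Algebra.EssFiniteType.comp k ↥(⨆ i, MM k x i) L

end

end Pool.Agent.K1H17.LP
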