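import Pool.Agent.K1H17.LP.Fn

/-! Abelian covers of products of lines: the numerical dimension. -/

set_option autoImplicit false
set_option linter.overlappingInstances false
set_option linter.unusedSectionVars false
set_option linter.unusedVariables false

open FF IntermediateField Polynomial Pool.Agent.W619.PQ Pool.Agent.W619.PL Pool.Agent.W619.TW
  Pool.Agent.W603.LV Pool.Agent.W619.Y Pool.Agent.W672.PG Pool.Agent.W824.PG Pool.Agent.Y174
  Pool.Agent.K1H17.IS Pool.Agent.K1H17.TP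

namespace Pool.Agent.K1H17.LP

section

variable {k : Type} [Field k] [CharZero k] [IsAlgClosed k] {L : Type} [Field L] [Algebra k L]
  {r s : ℕ} {x : Fin r → L} {f : Fin r → Fin 2 → k[X]} {A : Fin s → Fin r → Fin 2 → ℤ}
  {m : Fin s → ℕ} {z : Fin s → L}

theorem IsLineCover.hgen (hc : IsLineCover x f A m z) (σ : L ≃ₐ[k] L)
    (hσ : σ ∈ (⨆ i, MM k x i).fixingSubgroup) (hσz : ∀ j, σ (z j) = z j) : σ = 1 := by
  ext y
  have hy : y ∈ (⨆ i, MM k x i) ⊔ IntermediateField.adjoin k (Set.range z) := by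
    rw [hc.top]; trivial
  let S : IntermediateField k L := fixedField (Subgroup.zpowers σ)
  have hS : ∀ y, σ y = y → y ∈ S := by
    intro y hy g
    obtain ⟨t, ht⟩ := Subgroup.mem_zpowers_iff.1 g.2
    change (g : L ≃ₐ[k] L) y = y
    rw [← ht]
    have h1 : ∀ t : ℕ, (σ ^ t) y = y := by
      intro t
      induction t with
      | zero => rfl
      | succ t ih => rw [pow_succ', AlgEquiv.mul_apply, ih, hy]
    have h2 : ∀ t : ℕ, (σ ^ t)⁻¹ y = y := by
      intro t
      have h3 := congrArg (fun y => (σ ^ t)⁻¹ y) (h1 t)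
      change ((σ ^ t)⁻¹ * σ ^ t) y = _ at h3
      rw [inv_mul_cancel] at h3
      exact h3.symm
    obtain ⟨t', rfl | rfl⟩ := t.eq_nat_or_neg
    · rw [zpow_natCast]; exact h1 t'
    · rw [zpow_neg, zpow_natCast]; exact h2 t'
  have h1 : (⨆ i, MM k x i) ⊔ IntermediateField.adjoin k (Set.range z) ≤ S := by
    refine sup_le (fun y hy => hS y ?_) (IntermediateField.adjoin_le_iff.2 ?_)
    · exact hσ ⟨y, hy⟩
    · rintro _ ⟨j, rfl⟩
      exact hS _ (hσz j)
  exact h1 hy ⟨σ, Subgroup.mem_zpowers σ⟩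

/-- The orders of the products. -/
theorem ord_prod2 {B : Type} [Field B] [Algebra k B] (v : Place k B) {K : Fin r → Type}
    [∀ i, Field (K i)] [∀ i, Algebra k (K i)] (φ : ∀ i, K i →ₐ[k] B) {X : ∀ i, K i}
    (hX : ∀ i, Transcendental k (X i)) (hf : ∀ i c, f i c ≠ 0) (N : ℤ) (j : Fin s)
    (hdvd : ∀ i, (m j : ℤ) ∣ ∑ c, A j i c * (f i c).natDegree)
    (h : (m j : ℤ) ∣ N * ∑ i, ∑ c, A j i c *
      (pdiv (X i) (hX i) (f i c) (hf i c)).ev (fun x => v.ord (φ i x))) :
    (m j : ℤ) ∣ N * v.ord (∏ i, ∏ c, φ i (aeval (X i) (f i c)) ^ A j i c) := by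
  have h0 : ∀ i c, φ i (aeval (X i) (f i c)) ≠ 0 := fun i c => by
    have := (pdiv (X i) (hX i) (f i c) (hf i c)).ne0
    change aeval (X i) (f i c) ≠ 0 at this
    simpa using this
  have h1 : v.ord (∏ i, ∏ c, φ i (aeval (X i) (f i c)) ^ A j i c) =
      ∑ i, ∑ c, A j i c * v.ord (φ i (aeval (X i) (f i c))) := by
    rw [Pool.Agent.W619.PQ.ord_prod _ v _ fun i _ => Finset.prod_ne_zero_iff.2 fun c _ =>
      zpow_ne_zero _ (h0 i c)]
    refine Finset.sum_congr rfl fun i _ => ?_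
    exact ord_prod_zpow v _ _ (h0 i) _
  obtain ⟨I, hI⟩ : ∃ I : Fin r → ℤ, ∀ i c, v.ord (φ i (aeval (X i) (f i c))) =
      (pdiv (X i) (hX i) (f i c) (hf i c)).ev (fun x => v.ord (φ i x)) +
        (f i c).natDegree * I i := by
    refine ⟨fun i => (pdiv (X i) (hX i) (f i 0) (hf i 0)).S.inf'
      (pdiv (X i) (hX i) (f i 0) (hf i 0)).ne (fun x => v.ord (φ i x)), fun i c => ?_⟩
    rw [DivData.ev]
    change _ = v.ord (φ i (aeval (X i) (f i c))) - (f i c).natDegree *
      (pdiv (X i) (hX i) (f i 0) (hf i 0)).S.inf'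
      (pdiv (X i) (hX i) (f i 0) (hf i 0)).ne (fun x => v.ord (φ i x)) + _
    ring
  have h2 : N * v.ord (∏ i, ∏ c, φ i (aeval (X i) (f i c)) ^ A j i c) =
      N * ∑ i, ∑ c, A j i c *
        (pdiv (X i) (hX i) (f i c) (hf i c)).ev (fun x => v.ord (φ i x)) +
      N * ∑ i, (∑ c, A j i c * (f i c).natDegree) * I i := by
    rw [h1, ← mul_add, ← Finset.sum_add_distrib]
    congr 1
    refine Finset.sum_congr rfl fun i _ => ?_
    rw [Finset.sum_mul, ← Finset.sum_add_distrib]
    refine Finset.sum_congr rfl fun c _ => ?_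
    rw [hI]
    ring
  rw [h2]
  exact dvd_add h (Dvd.dvd.mul_left (Finset.dvd_sum fun i _ => (hdvd i).mul_right _) _)

/-- The numerical part. -/
theorem IsLineCover.num (hP : S_PLC) (hMu : S_MUL) (hDg : S_DEG) (hA : S_ADP2) (hR : S_RES)
    (hEm : S_EMP) (hCn : S_CNT) (hc : IsLineCover x f A m z) :
    (Polytope A m (fun i c => (f i c).natDegree) = ∅ → NumNeg k L r (fun _ => False)) ∧
    ((Polytope A m (fun i c => (f i c).natDegree)).Nonempty → NumLe k L r (fun _ => False)
      (affDim (Polytope A m fun i c => (f i c).natDegree))) := by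
  classical
  have hL : Algebra.trdeg k L = r := hc.total
  have hessL := hc.essL
  have hfd := hc.galois.1
  have hgal := hc.galois.2
  obtain ⟨G, hG⟩ : ∃ G : Subgroup (L ≃ₐ[k] L), G = (⨆ i, MM k x i).fixingSubgroup := ⟨_, rfl⟩
  obtain ⟨hGfin, hGfix⟩ := Pool.Agent.TH122.AB.fixing_props (⨆ i, MM k x i)
  rw [← hG] at hGfin hGfix
  -- the factors
  have hmem : ∀ i y, (MM k x i).val y ∈ fixedField G := by
    intro i y
    rw [hGfix]
    exact le_iSup (MM k x) i y.2
  let φ : ∀ i, MM k x i →ₐ[k] fixedField G := fun i => codR (MM k x i).val (fixedField G) (hmem i)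
  have hφ : ∀ i y, ((φ i y : fixedField G) : L) = (y : L) := fun i y => rfl
  have hsup : (⨆ i, (φ i).fieldRange) = ⊤ := by
    refine iSup_codR (fun i => (MM k x i).val) (fixedField G) ?_ hmem
    rw [hGfix]
    exact iSup_congr fun i => (IntermediateField.fieldRange_val (MM k x i)).symm
  have hBn : Algebra.trdeg k (fixedField G) = r := by
    have halg' := Pool.Agent.W721.PG.EFF2.alg_fixed G
    have h1 := (Pool.Agent.W721.PG.EFF2.exists_basis (fixedField G) r hL).1
    exact h1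
  obtain ⟨b, hb⟩ : ∃ b : Fin s → fixedField G, ∀ j, z j ^ m j = (b j : L) :=
    ⟨fun j => ⟨z j ^ m j, by rw [hGfix]; exact hc.root_mem j⟩, fun j => rfl⟩
  obtain ⟨X, hXdef⟩ : ∃ X : ∀ i, MM k x i, X = fun i => lgen (k := k) (x i) := ⟨_, rfl⟩
  have hX : ∀ i, IsLine k (X i) := fun i => by rw [hXdef]; exact hc.line i
  have hXL : ∀ i, (φ i (X i) : L) = x i := fun i => by rw [hXdef]; rfl
  have hf := hc.f_ne
  have hb' : ∀ j, b j = ∏ i, ∏ c, φ i (aeval (X i) (f i c)) ^ A j i c := by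
    intro j
    apply Subtype.ext
    rw [← hb, hc.root]
    have h1 : ((∏ i, ∏ c, φ i (aeval (X i) (f i c)) ^ A j i c : fixedField G) : L) =
        ∏ i, ((∏ c, φ i (aeval (X i) (f i c)) ^ A j i c : fixedField G) : L) :=
      map_prod (algebraMap (fixedField G) L) _ _
    rw [h1]
    refine Finset.prod_congr rfl fun i _ => ?_
    have h2 : ((∏ c, φ i (aeval (X i) (f i c)) ^ A j i c : fixedField G) : L) =
        ∏ c, ((φ i (aeval (X i) (f i c)) ^ A j i c : fixedField G) : L) :=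
      map_prod (algebraMap (fixedField G) L) (fun c => φ i (aeval (X i) (f i c)) ^ A j i c)
        Finset.univ
    rw [h2]
    refine Finset.prod_congr rfl fun c _ => ?_
    have h3 : ((φ i (aeval (X i) (f i c)) ^ A j i c : fixedField G) : L) =
        ((φ i (aeval (X i) (f i c)) : fixedField G) : L) ^ A j i c :=
      map_zpow₀ (algebraMap (fixedField G) L) _ _
    rw [h3, hφ]
    congr 1
    have h4 : (aeval (X i) (f i c) : L) = aeval ((MM k x i).val (X i)) (f i c) := by
      rw [Polynomial.aeval_algHom_apply]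
      rfl
    rw [h4]
    congr 1
    rw [← hXL i]
    rfl
  -- ramification
  have hramv : ∀ (v : Place k (fixedField G)) (w : Place k L) (e' N : ℕ), LiesOn w v e' →
      (∀ j, (m j : ℤ) ∣ N * ∑ i, ∑ c, A j i c *
        (pdiv (X i) (hX i).tr (f i c) (hf i c)).ev (fun x => v.ord (φ i x))) → e' ∣ N := by
    intro v w e' N hwv hN
    refine ram hwv hc.pos hc.z_ne hb (fun σ hσ h => hc.hgen σ (hG ▸ hσ) h) fun j => ?_
    rw [hb']
    exact ord_prod2 v φ (fun i => (hX i).tr) hf N j (fun i => hc.dvd j i) (hN j)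
  -- the multiplicities
  let Xs : Place k (fixedField G) → Set ℝ := fun v =>
    {y | ∃ (w : Place k L) (e' : ℕ), LiesOn w v e' ∧ y = 1 - 1 / (e' : ℝ)}
  let δ : Place k (fixedField G) → ℝ := fun v => sSup (Xs v)
  have hXbdd : ∀ v, BddAbove (Xs v) := by
    intro v
    refine ⟨1, ?_⟩
    rintro _ ⟨w, e', h1, rfl⟩
    have h2 : (0 : ℝ) ≤ 1 / (e' : ℝ) := by positivity
    linarith
  have hXne : ∀ v, (Xs v).Nonempty := by
    intro v
    obtain ⟨w0, e0, I, hwv0, -, -⟩ := exists_inertia G v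
    exact ⟨_, w0, e0, hwv0, rfl⟩
  have hδle : ∀ v (g : ℕ), 0 < g → (∀ (w : Place k L) (e' : ℕ), LiesOn w v e' → e' ∣ g) →
      δ v ≤ 1 - 1 / (g : ℝ) := by
    intro v g hg hv
    refine csSup_le (hXne v) ?_
    rintro _ ⟨w, e', h1, rfl⟩
    have h2 : (e' : ℝ) ≤ g := by exact_mod_cast Nat.le_of_dvd hg (hv w e' h1)
    have h3 : (0 : ℝ) < e' := by exact_mod_cast h1.1
    have h4 := one_div_le_one_div_of_le h3 h2
    linarith
  have hδge : ∀ v (w : Place k L) (e' : ℕ), LiesOn w v e' →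
      (0 : ℝ) ≤ 1 - e' * (1 - δ v) := by
    intro v w e' h1
    have h2 : 1 - 1 / (e' : ℝ) ≤ δ v := le_csSup (hXbdd v) ⟨w, e', h1, rfl⟩
    have h3 : (0 : ℝ) < e' := by exact_mod_cast h1.1
    have h4 : (e' : ℝ) * (1 - δ v) ≤ e' * (1 / e') :=
      mul_le_mul_of_nonneg_left (by linarith) h3.le
    rw [mul_one_div_cancel h3.ne'] at h4
    linarith
  choose p hp using fun i c (t : Zr (f i c)) => (hP k (MM k x i) (X i) (hX i)).2.1 t.1
  have hub := neg_num (φ := φ) (δ := δ) hP hMu hDg hA hR hEm hCn hBn hX hf hc.deg hc.sqf hsup hp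
    (A := A) hc.pos
    (fun v => csSup_le (hXne v) (by
      rintro _ ⟨w, e', h1, rfl⟩
      have h2 : (0 : ℝ) ≤ 1 / (e' : ℝ) := by positivity
      linarith))
    (fun v hv => by
      have h1 := hδle v 1 one_pos fun w e' hwv => hramv v w e' 1 hwv fun j => by
        have h2 : ∑ i, ∑ c, A j i c *
            (pdiv (X i) (hX i).tr (f i c) (hf i c)).ev (fun x => v.ord (φ i x)) = 0 :=
          Finset.sum_eq_zero fun i _ => Finset.sum_eq_zero fun c _ => by rw [hv i c, mul_zero]
        rw [h2, mul_zero]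
        exact dvd_zero _
      simpa using h1)
    (fun ch τ g lam w hg hadm hmono => by
      refine hδle w g hg fun w' e' hwv => hramv w w' e' g hwv fun j => ?_
      have h1 := hadm.2.2 j
      have h2 : (g : ℤ) * ∑ i, ∑ c, A j i c *
            (pdiv (X i) (hX i).tr (f i c) (hf i c)).ev (fun x => w.ord (φ i x)) =
          ∑ i, ∑ c, A j i c * (((if c = ch i then g * lam i else 0 : ℕ)) : ℤ) := by
        rw [Finset.mul_sum]
        refine Finset.sum_congr rfl fun i _ => ?_
        rw [Finset.mul_sum]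
        refine Finset.sum_congr rfl fun c _ => ?_
        rw [(pdiv (X i) (hX i).tr (f i c) (hf i c)).ev_scale (Int.natCast_nonneg (lam i))
          (hmono.ord i), (hMu k (MM k x i) (X i) (hX i) (f i c) (hf i c) _).1 _
          (hp i (ch i) (τ i)), mult_eq (hc.sqf i) (hf i) (τ i).2]
        by_cases hcc : c = ch i
        · rw [if_pos hcc, if_pos hcc]
          push_cast
          ring
        · rw [if_neg hcc, if_neg hcc]
          simp
      rw [h2]
      exact h1)
  refine ⟨fun hv S => ?_, fun hne S => ?_⟩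
  · have h1 := cov_neg hL hessL G δ (fun _ => 0)
      (fun v _ w e' hwv => hδge v w e' hwv) (hub.1 hv)
    obtain ⟨M0, hM0⟩ := h1 S
    refine ⟨M0, fun M' hM' hI => ?_⟩
    obtain ⟨ω, hω, hsec⟩ := hI
    have h2 := hM0 M' hM' (ω 0) (pair_of_sec hL hessL (Bd := fun _ => False)
      (fun v hv => hv.elim) (fun v _ => rfl) (hsec 0))
    exact hω.ne_zero 0 h2
  · have h3 := cov_num hL hessL G δ (fun _ => 0)
      (fun v _ w e' hwv => hδge v w e' hwv) (hub.2 hne)
    obtain ⟨C, hC⟩ := h3 S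
    refine ⟨C, fun M' N hM' hI => hC M' N hM' ?_⟩
    obtain ⟨ω, hω, hsec⟩ := hI
    exact ⟨ω, hω, fun l => pair_of_sec hL hessL (Bd := fun _ => False)
      (fun v hv => hv.elim) (fun v _ => rfl) (hsec l)⟩

end

end Pool.Agent.K1H17.LP
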