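import Pool.Agent.K1H17.LP.Fn2
import Pool.Agent.K1H17.TP.Dl

/-! Abelian covers of products of lines: the construction of pluricanonical forms. -/

set_option autoImplicit false
set_option linter.overlappingInstances false
set_option linter.unusedSectionVars false
set_option linter.unusedVariables false

open FF IntermediateField Polynomial Pool.Agent.W619.PQ Pool.Agent.W619.PL Pool.Agent.W619.TW
  Pool.Agent.W603.LV Pool.Agent.W619.Y Pool.Agent.W672.PG Pool.Agent.W824.PG Pool.Agent.Y174
  Pool.Agent.K1H17.IS Pool.Agent.K1H17.TP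

namespace Pool.Agent.K1H17.LP

/-- Affinely independent points. -/
theorem exists_pts {V : Type} [AddCommGroup V] [Module ℚ V] [FiniteDimensional ℚ V] {P : Set V}
    (hP : P.Nonempty) {h : ℕ} (hh : Module.finrank ℚ (vectorSpan ℚ P) = h) :
    ∃ y : Fin (h + 1) → V, (∀ l, y l ∈ P) ∧
      LinearIndependent ℚ fun l : Fin h => y l.succ - y 0 := by
  classical
  obtain ⟨y0, hy0⟩ := hP
  have h1 : vectorSpan ℚ P = Submodule.span ℚ ((fun p => p - y0) '' P) := by
    rw [vectorSpan_eq_span_vsub_set_right ℚ hy0]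
    rfl
  obtain ⟨b, hbP, hspan, hind⟩ := exists_linearIndependent ℚ ((fun p : V => p - y0) '' P)
  have hcard : Module.finrank ℚ (Submodule.span ℚ b) = h := by
    rw [hspan, ← h1, hh]
  have hbf : Finite b := hind.finite
  have hbft := Fintype.ofFinite b
  have hc2 : Fintype.card b = h := by
    rw [← hcard]
    have := finrank_span_eq_card hind
    rw [Subtype.range_coe] at this
    exact this.symm
  obtain ⟨e⟩ : Nonempty (Fin h ≃ b) := ⟨(Fintype.equivFinOfCardEq hc2).symm⟩
  have h2 : ∀ l, ∃ p ∈ P, p - y0 = (e l : V) := fun l => hbP (e l).2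
  choose p hp hpe using h2
  refine ⟨Fin.cons y0 p, fun l => ?_, ?_⟩
  · refine Fin.cases ?_ (fun l => ?_) l
    · exact hy0
    · rw [Fin.cons_succ]
      exact hp l
  · have h3 : (fun l : Fin h => (Fin.cons y0 p : Fin (h + 1) → V) l.succ -
        (Fin.cons y0 p : Fin (h + 1) → V) 0) = fun l => ((e l : b) : V) := by
      funext l
      rw [Fin.cons_succ, Fin.cons_zero, hpe]
    rw [h3]
    exact hind.comp e e.injective

section

variable {k : Type} {L : Type} [Field k] [CharZero k] [Field L] [Algebra k L]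

/-- Products of forms of the factors, in families. -/
theorem kod_lbJ {r μ h : ℕ} {a : Fin r → ℕ} (hμ : 1 ≤ μ) (M : Fin r → IntermediateField k L)
    (halg : Algebra.IsAlgebraic ↥(⨆ i, M i) L) (hn : Algebra.trdeg k L = (∑ i, a i : ℕ))
    (hessL : Algebra.EssFiniteType k L)
    (y : ∀ i, Fin (a i) → M i) (hy : ∀ i, IsTranscendenceBasis k (y i))
    (g : ∀ i, Fin (h + 1) → M i) (hg0 : ∀ i l, g i l ≠ 0)
    (hFi : AlgebraicIndependent k
      (fun l : Fin h => (∏ i, ((g i l.succ : M i) : L)) / ∏ i, ((g i 0 : M i) : L)))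
    (hw : ∀ w : Place k L, IsDivisorial w (∑ i, a i) → (∀ i (f : M i), w.ord (f : L) = 0) ∨
        ∀ l, ∃ γ : Fin r → ℝ, (μ : ℝ) ≤ ∑ i, γ i ∧
        ∀ i, LG w μ (fun p => (y i p : L)) ((g i l : M i) : L) (γ i)) :
    KodTr k L (∑ i, a i) h := by
  classical
  obtain ⟨σ⟩ : Nonempty ((Σ i, Fin (a i)) ≃ Fin (∑ i, a i)) := ⟨finSigmaFinEquiv⟩
  have hbasis := basis_sigma (ι := fun i => Fin (a i)) M halg hn (fun i => Fintype.card_fin _) y hy
  set Y : (Σ i, Fin (a i)) → L := fun p => (y p.1 p.2 : L) with hY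
  have hbasis' : IsTranscendenceBasis k (Y ∘ σ.symm) :=
    (isTranscendenceBasis_equiv (R := k) (f := Y) σ.symm).2 hbasis
  obtain ⟨D0, hD0⟩ := Pool.Agent.W636.PG.exists_duals k L (∑ i, a i) (Y ∘ σ.symm) hbasis'
  have hdet1 : (Matrix.of fun i j => D0 (σ i) (Y j)).det = 1 := by
    have h1 : (Matrix.of fun i j => D0 (σ i) (Y j)) = 1 := by
      ext i j
      have h2 := hD0 (σ i) (σ j)
      rw [Function.comp_apply, σ.symm_apply_apply] at h2
      rw [Matrix.of_apply, Matrix.one_apply, h2]
      simp only [σ.injective.eq_iff]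
    rw [h1, Matrix.det_one]
  let c : Fin (h + 1) → L := fun l => ∏ i, ((g i l : M i) : L)
  have hf0 : ∀ i l, ((g i l : M i) : L) ≠ 0 := fun i l h => hg0 i l (Subtype.ext h)
  have hc0 : ∀ l, c l ≠ 0 := fun l => Finset.prod_ne_zero_iff.2 fun i _ => hf0 i _
  let s : Fin (h + 1) → (Fin (∑ i, a i) → Derivation k L L) → L := fun l D =>
    (Matrix.of fun i j => D (σ i) (Y j)).det ^ μ * c l
  have hs : ∀ l, IsPluriForm k L (∑ i, a i) μ (s l) := fun l => pluri_sigma σ Y μ (c l)
  have hsD : ∀ l, s l D0 = c l := by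
    intro l
    change (Matrix.of fun i j => D0 (σ i) (Y j)).det ^ μ * c l = c l
    rw [hdet1, one_pow, one_mul]
  refine ⟨μ, hμ, s, fun l => ⟨hs l, fun w hwd _ D hD => ?_, fun w _ h => h.elim⟩, D0, ?_, ?_⟩
  · have h3 : GeR w 0 (s l D) := by
      rcases hw w hwd with htr | hγl
      · have g1 : ∀ i, YGood (a i) μ w (fun p => (y i p : L)) ((g i l : M i) : L) := by
          intro i
          refine ⟨1, fun p => (y i p : L), fun p => Or.inr (htr i _).ge, ?_, ?_⟩
          · intro D p
            simp [Matrix.one_apply]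
          · rw [Matrix.det_one, one_pow, mul_one]
            exact Or.inr (htr i _).ge
        have := Ge.toR (yg_sigma g1 (fun i => D (σ i)) (fun j => hD (σ j)))
        simpa using this
      · obtain ⟨γ, hγ, h1⟩ := hγl l
        have h2 : LogGe (∑ i, a i) w (s l) μ := fun D hD hl =>
          (lg_sigma h1 (fun i => D (σ i)) (fun j => hD (σ j))
            (fun j => hl (σ j))).mono hγ
        have h3 := reg_of_log hn hessL hwd (s l) (hs l) h2 D hD
        rwa [sub_self] at h3
    rcases h3 with h3 | h3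
    · exact Or.inl h3
    · right
      refine ⟨1, Finset.mem_singleton_self _, one_ne_zero, ?_⟩
      rw [w.ord_one, mul_zero]
      exact_mod_cast h3
  · intro l
    rw [hsD]
    exact hc0 l
  · have e1 : (fun l : Fin h => s l.succ D0 / s 0 D0) =
        fun l : Fin h => (∏ i, ((g i l.succ : M i) : L)) / ∏ i, ((g i 0 : M i) : L) := by
      funext l
      rw [hsD, hsD]
    rw [e1]
    exact hFi

end

end Pool.Agent.K1H17.LP
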