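import Pool.Agent.K1H17.LP.Lw

/-! Abelian covers of products of lines: the lower bound for the Kodaira dimension. -/

set_option autoImplicit false
set_option linter.overlappingInstances false
set_option linter.unusedSectionVars false
set_option linter.unusedVariables false

open FF IntermediateField Polynomial Pool.Agent.W619.PQ Pool.Agent.W619.PL Pool.Agent.W619.TW
  Pool.Agent.W603.LV Pool.Agent.W619.Y Pool.Agent.W672.PG Pool.Agent.W824.PG Pool.Agent.Y174
  Pool.Agent.K1H17.IS Pool.Agent.K1H17.TP

namespace Pool.Agent.K1H17.LP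

section

variable {k : Type} [Field k] [CharZero k] [IsAlgClosed k] {L : Type} [Field L] [Algebra k L]
  {r s : ℕ} {x : Fin r → L} {f : Fin r → Fin 2 → k[X]} {A : Fin s → Fin r → Fin 2 → ℤ}
  {m : Fin s → ℕ} {z : Fin s → L}

theorem coprime_of_sq {p q : k[X]} (h : Squarefree (p * q)) : IsCoprime p q :=
  (isRelPrime_iff_isCoprime).1 (squarefree_mul_iff.1 h).1

/-- The multiplicities at a place of the cover. -/
theorem IsLineCover.dvd_place (hc : IsLineCover x f A m z) {X : ∀ i, MM k x i}
    (hX : ∀ i, IsLine k (X i)) (hXL : ∀ i, ((X i : MM k x i) : L) = x i) (w : Place k L)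
    (j : Fin s) : (m j : ℤ) ∣ ∑ i, ∑ c, A j i c *
      (pdiv (X i) (hX i).tr (f i c) (hc.f_ne i c)).ev (fun y => w.ord (y : L)) := by
  have h0 := hc.aev_ne
  have h4 : ∀ i c, ((aeval (X i) (f i c) : MM k x i) : L) = aeval (x i) (f i c) := by
    intro i c
    rw [← hXL i]
    exact (Polynomial.aeval_algHom_apply (MM k x i).val (X i) (f i c)).symm
  have h1 := congrArg w.ord (hc.root j)
  rw [w.ord_pow, Pool.Agent.W619.PQ.ord_prod _ w _ fun i _ => Finset.prod_ne_zero_iff.2 fun c _ =>
      zpow_ne_zero _ (h0 i c)] at h1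
  obtain ⟨I, hI⟩ : ∃ I : Fin r → ℤ, ∀ i c, w.ord (aeval (x i) (f i c)) =
      (pdiv (X i) (hX i).tr (f i c) (hc.f_ne i c)).ev (fun y => w.ord (y : L)) +
        (f i c).natDegree * I i := by
    refine ⟨fun i => (pdiv (X i) (hX i).tr (f i 0) (hc.f_ne i 0)).S.inf'
      (pdiv (X i) (hX i).tr (f i 0) (hc.f_ne i 0)).ne (fun y => w.ord (y : L)), fun i c => ?_⟩
    rw [DivData.ev, ← h4]
    change _ = w.ord ((aeval (X i) (f i c) : MM k x i) : L) - (f i c).natDegree *
      (pdiv (X i) (hX i).tr (f i 0) (hc.f_ne i 0)).S.inf'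
      (pdiv (X i) (hX i).tr (f i 0) (hc.f_ne i 0)).ne (fun y => w.ord (y : L)) + _
    ring
  have h2 : ∑ i, ∑ c, A j i c *
      (pdiv (X i) (hX i).tr (f i c) (hc.f_ne i c)).ev (fun y => w.ord (y : L)) =
      m j * w.ord (z j) - ∑ i, (∑ c, A j i c * (f i c).natDegree) * I i := by
    rw [h1, ← Finset.sum_sub_distrib]
    refine Finset.sum_congr rfl fun i _ => ?_
    rw [ord_prod_zpow w _ _ (h0 i), Finset.sum_mul, ← Finset.sum_sub_distrib]
    refine Finset.sum_congr rfl fun c _ => ?_
    rw [hI]
    ring
  rw [h2]
  exact dvd_sub (dvd_mul_right _ _) (Finset.dvd_sum fun i _ => (hc.dvd j i).mul_right _)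

/-- **The lower bound.** -/
theorem IsLineCover.kod (hP : S_PLC) (hMu : S_MUL) (hFr : S_FRM) (hIn : S_IND)
    (hc : IsLineCover x f A m z)
    (hne : (Polytope A m (fun i c => (f i c).natDegree)).Nonempty) :
    KodTr k L r (affDim (Polytope A m fun i c => (f i c).natDegree)) := by
  classical
  obtain ⟨h, hh⟩ : ∃ h, h = affDim (Polytope A m fun i c => (f i c).natDegree) := ⟨_, rfl⟩
  rw [← hh]
  obtain ⟨y, hyP, hyi⟩ := exists_pts hne (h := h) hh.symm
  have hfne := hc.f_ne
  obtain ⟨X, hXdef⟩ : ∃ X : ∀ i, MM k x i, X = fun i => lgen (k := k) (x i) := ⟨_, rfl⟩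
  have hX : ∀ i, IsLine k (X i) := fun i => by rw [hXdef]; exact hc.line i
  have hXL : ∀ i, ((X i : MM k x i) : L) = x i := fun i => by rw [hXdef]; rfl
  have h4 : ∀ i c, ((aeval (X i) (f i c) : MM k x i) : L) = aeval (x i) (f i c) := by
    intro i c
    rw [← hXL i]
    exact (Polynomial.aeval_algHom_apply (MM k x i).val (X i) (f i c)).symm
  have h40 : ∀ i c, (aeval (X i) (f i c) : MM k x i) ≠ 0 := fun i c h => by
    have h5 := h4 i c
    rw [h] at h5
    exact hc.aev_ne i c h5.symm
  -- a common denominator
  obtain ⟨μ, hμ1, e, he⟩ : ∃ μ : ℕ, 1 ≤ μ ∧ ∃ e : Fin (h + 1) → Fin r → Fin 2 → ℤ,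
      ∀ l i c, (e l i c : ℚ) = μ * y l i c - μ := by
    refine ⟨∏ l, ∏ i, ∏ c, (y l i c).den, ?_, ?_⟩
    · exact Nat.one_le_iff_ne_zero.2 (Finset.prod_ne_zero_iff.2 fun l _ =>
        Finset.prod_ne_zero_iff.2 fun i _ => Finset.prod_ne_zero_iff.2 fun c _ => (y l i c).den_nz)
    · have h1 : ∀ l i c, ∃ z : ℤ, (z : ℚ) = (∏ l, ∏ i, ∏ c, (y l i c).den : ℕ) * y l i c := by
        intro l i c
        obtain ⟨q, hq⟩ : (y l i c).den ∣ ∏ l, ∏ i, ∏ c, (y l i c).den :=
          (Finset.dvd_prod_of_mem (fun c => (y l i c).den) (Finset.mem_univ c)).trans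
            ((Finset.dvd_prod_of_mem (fun i => ∏ c, (y l i c).den) (Finset.mem_univ i)).trans
              (Finset.dvd_prod_of_mem (fun l => ∏ i, ∏ c, (y l i c).den) (Finset.mem_univ l)))
        refine ⟨q * (y l i c).num, ?_⟩
        rw [hq]
        push_cast
        have h2 : ((y l i c).den : ℚ) * y l i c = (y l i c).num := by
          rw [mul_comm]
          exact_mod_cast Rat.mul_den_eq_num (y l i c)
        rw [mul_comm ((y l i c).den : ℚ), mul_assoc, h2]
      choose z' hz' using h1
      exact ⟨fun l i c => z' l i c - (∏ l, ∏ i, ∏ c, (y l i c).den : ℕ), fun l i c => by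
        push_cast at hz' ⊢
        rw [hz']⟩
  have he' : ∀ l i c, (e l i c : ℝ) = μ * (y l i c : ℝ) - μ := fun l i c => by
    exact_mod_cast congrArg (fun q : ℚ => (q : ℝ)) (he l i c)
  have hM : ∀ i, Algebra.trdeg k (MM k x i) = (1 : ℕ) := fun i => line_trdeg (hX i)
  have hessM : ∀ i, Algebra.EssFiniteType k (MM k x i) := fun i => line_ess (hX i)
  have hs : ∑ i : Fin r, (fun _ => 1 : Fin r → ℕ) i = r := by simp
  have hdiv : ∀ i (q : Place k (MM k x i)), IsDivisorial q 1 := fun i =>
    (hP k (MM k x i) (X i) (hX i)).2.2.2.2.2.1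
  choose E hE using fun i => Pool.Agent.W636.PG.exists_duals k (MM k x i) 1 (fun _ => X i)
    (line_basis (hX i))
  obtain ⟨g, hg⟩ : ∃ g : ∀ i, Fin (h + 1) → MM k x i, ∀ i l, g i l =
      ∏ c, (aeval (X i) (f i c) : MM k x i) ^ e l i c := ⟨_, fun i l => rfl⟩
  have hg0 : ∀ i l, g i l ≠ 0 := fun i l => by
    rw [hg]
    exact Finset.prod_ne_zero_iff.2 fun c _ => zpow_ne_zero _ (h40 i c)
  have hgL : ∀ i l, ((g i l : MM k x i) : L) = ∏ c, aeval (x i) (f i c) ^ e l i c := by
    intro i l
    rw [hg]
    have h5 : ((∏ c, (aeval (X i) (f i c) : MM k x i) ^ e l i c : MM k x i) : L) =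
        ∏ c, (((aeval (X i) (f i c) : MM k x i) ^ e l i c : MM k x i) : L) :=
      map_prod (algebraMap (MM k x i) L) (fun c => (aeval (X i) (f i c) : MM k x i) ^ e l i c)
        Finset.univ
    rw [h5]
    refine Finset.prod_congr rfl fun c _ => ?_
    rw [← h4]
    exact map_zpow₀ (algebraMap (MM k x i) L) _ _
  have hyd : ∀ l i, ∑ c, ((f i c).natDegree : ℝ) * (y l i c : ℝ) =
      ∑ c, ((f i c).natDegree : ℝ) - 2 := by
    intro l i
    have h5 := (hyP l).1 i
    have h6 := congrArg (fun q : ℚ => (q : ℝ)) h5
    push_cast at h6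
    exact h6
  have hmain := kod_lbJ (h := h) (a := fun _ => 1) hμ1 (MM k x) hc.alg (by rw [hs]; exact hc.total)
    hc.essL (fun i _ => X i) (fun i => line_basis (hX i)) g hg0 ?_ ?_
  · rwa [hs] at hmain
  · -- independence
    have h5 := hIn k L r h x f (fun l i c => e l.succ i c - e 0 i c) hc.indep hc.deg
      (fun i => coprime_of_sq (hc.sqf i)) (fun l i => by
        have h6 := hyd l.succ i
        have h7 := hyd 0 i
        have h8 : ((∑ c, (e l.succ i c - e 0 i c) * ((f i c).natDegree : ℤ) : ℤ) : ℝ) = 0 := by
          push_cast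
          have h9 : ∑ c, ((e l.succ i c : ℝ) - e 0 i c) * ((f i c).natDegree : ℝ) =
              μ * (∑ c, ((f i c).natDegree : ℝ) * (y l.succ i c : ℝ)) -
              μ * (∑ c, ((f i c).natDegree : ℝ) * (y 0 i c : ℝ)) := by
            rw [Finset.mul_sum, Finset.mul_sum, ← Finset.sum_sub_distrib]
            refine Finset.sum_congr rfl fun c _ => ?_
            rw [he', he']
            ring
          rw [h9, h6, h7, sub_self]
        exact_mod_cast h8) (by
        rw [Fintype.linearIndependent_iff] at hyi ⊢
        intro b hb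
        refine hyi b ?_
        have hμ0 : (μ : ℚ) ≠ 0 := by positivity
        have hb0 : ∀ i, ∑ l, b l * (y l.succ i 0 - y 0 i 0) = 0 := by
          intro i
          have h6 := congrFun hb i
          rw [Finset.sum_apply] at h6
          simp only [Pi.smul_apply, smul_eq_mul, Pi.zero_apply] at h6
          push_cast at h6
          have h7 : (μ : ℚ) * ∑ l, b l * (y l.succ i 0 - y 0 i 0) = 0 := by
            rw [Finset.mul_sum, ← h6]
            refine Finset.sum_congr rfl fun l _ => ?_
            rw [he, he]
            ring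
          exact (mul_eq_zero.1 h7).resolve_left hμ0
        funext i c
        rw [Finset.sum_apply, Finset.sum_apply]
        simp only [Pi.smul_apply, Pi.sub_apply, smul_eq_mul, Pi.zero_apply]
        rcases (by omega : c = 0 ∨ c = 1) with rfl | rfl
        · exact hb0 i
        · have hd1 : ((f i 1).natDegree : ℚ) ≠ 0 := by
            have := hc.deg i 1
            positivity
          have h6 : ∀ l, ((f i 1).natDegree : ℚ) * (y l i 1) =
              ∑ c, ((f i c).natDegree : ℚ) - 2 - (f i 0).natDegree * y l i 0 := by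
            intro l
            have h7 := (hyP l).1 i
            rw [Fin.sum_univ_two (f := fun c => ((f i c).natDegree : ℚ) * y l i c)] at h7
            linarith
          have h8 : ((f i 1).natDegree : ℚ) * ∑ l, b l * (y l.succ i 1 - y 0 i 1) =
              -((f i 0).natDegree : ℚ) * ∑ l, b l * (y l.succ i 0 - y 0 i 0) := by
            rw [Finset.mul_sum, Finset.mul_sum]
            refine Finset.sum_congr rfl fun l _ => ?_
            have h9 := h6 l.succ
            have h10 := h6 0
            linear_combination b l * (h9 - h10)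
          rw [hb0, mul_zero] at h8
          exact (mul_eq_zero.1 h8).resolve_left hd1)
    have h6 : (fun l : Fin h => (∏ i, ((g i l.succ : MM k x i) : L)) /
        ∏ i, ((g i 0 : MM k x i) : L)) =
        fun l : Fin h => ∏ i, ∏ c, aeval (x i) (f i c) ^ (e l.succ i c - e 0 i c) := by
      funext l
      rw [← Finset.prod_div_distrib]
      refine Finset.prod_congr rfl fun i _ => ?_
      rw [hgL, hgL, ← Finset.prod_div_distrib]
      refine Finset.prod_congr rfl fun c _ => ?_
      rw [zpow_sub₀ (hc.aev_ne i c)]
    rw [h6]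
    exact h5
  · intro w hw
    rw [hs] at hw
    by_cases htr : ∀ i (f : MM k x i), w.ord (f : L) = 0
    · exact Or.inl htr
    right
    push Not at htr
    obtain ⟨i0, f0, hf0⟩ := htr
    intro l
    have hfac : ∀ i, ∃ (γ : ℝ) (d : Fin 2 → ℕ), (∀ c, (pdiv (X i) (hX i).tr (f i c)
          (hfne i c)).ev (fun y => w.ord (y : L)) = d c) ∧ (d 0 = 0 ∨ d 1 = 0) ∧
        LG w μ (fun _ : Fin 1 => (X i : L)) ((g i l : MM k x i) : L) γ ∧
        ((∃ f : MM k x i, w.ord (algebraMap (MM k x i) L f) ≠ 0) → d = 0 → (μ : ℝ) ≤ γ) ∧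
        (d = 0 → 0 ≤ γ) ∧ (μ * ∑ c, (d c : ℝ) * y l i c ≤ γ) := by
      intro i
      by_cases hcon : ∃ f : MM k x i, w.ord (algebraMap (MM k x i) L f) ≠ 0
      · obtain ⟨c0, u, hu⟩ := exists_over (K := MM k x i) w hcon
        have hev : ∀ c, (pdiv (X i) (hX i).tr (f i c) (hfne i c)).ev (fun y => w.ord (y : L)) =
            c0 * (pdiv (X i) (hX i).tr (f i c) (hfne i c)).ev u.ord := fun c =>
          (pdiv (X i) (hX i).tr (f i c) (hfne i c)).ev_scale (Int.natCast_nonneg c0) hu.2
        have hc0 : (1 : ℝ) ≤ c0 := by exact_mod_cast hu.1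
        have hμ0 : (0 : ℝ) ≤ μ := Nat.cast_nonneg μ
        have hfrm := hFr k (MM k x i) (X i) (hX i) (f i) (e l i) μ (hc.sqf i)
        obtain ⟨F, hF⟩ : ∃ F : (Fin 1 → Derivation k (MM k x i) (MM k x i)) → MM k x i,
            F = fun D => (∏ c, aeval (X i) (f i c) ^ e l i c) *
              (Matrix.of fun i' _ => D i' (X i) : Matrix (Fin 1) (Fin 1) (MM k x i)).det ^ μ :=
          ⟨_, rfl⟩
        have hFp : IsPluriForm k (MM k x i) 1 μ F := by
          rw [hF]
          exact pluri_det _ (fun _ => X i)
        have hFE : F (E i) = g i l := by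
          rw [hF, hg]
          have h5 : (Matrix.of fun i' _ => E i i' (X i) : Matrix (Fin 1) (Fin 1) (MM k x i)) = 1 := by
            refine Matrix.ext fun a b => ?_
            rw [Matrix.of_apply, Matrix.one_apply]
            exact hE i a b
          simp only [h5, Matrix.det_one, one_pow, mul_one]
        have hLG : ∀ γ : ℝ, LogGe 1 u F γ →
            LG w μ (fun _ : Fin 1 => (X i : L)) ((g i l : MM k x i) : L) (c0 * γ) := by
          intro γ hγ
          rw [← hFE]
          exact lg_of_log (hM i) hc.total (hessM i) hw hu F hFp hγ (fun _ => X i)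
            (line_basis (hX i)) (E i) (hE i)
        rcases (hP k (MM k x i) (X i) (hX i)).1 u with ⟨a, ha⟩ | hinf
        · have h5 := hfrm.1 u a ha
          rw [← hF] at h5
          have h6 := hLG _ h5
          have h7 : ∀ c, (pdiv (X i) (hX i).tr (f i c) (hfne i c)).ev (fun y => w.ord (y : L)) =
              ((c0 * (f i c).rootMultiplicity a : ℕ) : ℤ) := by
            intro c
            rw [hev, (hMu k (MM k x i) (X i) (hX i) (f i c) (hfne i c) u).1 a ha]
            push_cast
            rfl
          by_cases hroot : ∃ c, (f i c).IsRoot a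
          · obtain ⟨c1, hc1⟩ := hroot
            have h8 := mult_eq (hc.sqf i) (hfne i) hc1
            refine ⟨_, fun c => c0 * (f i c).rootMultiplicity a, h7, ?_, h6, ?_, ?_, ?_⟩
            · rcases (by omega : c1 = 0 ∨ c1 = 1) with rfl | rfl
              · right
                change c0 * (f i 1).rootMultiplicity a = 0
                rw [h8, if_neg (by decide), mul_zero]
              · left
                change c0 * (f i 0).rootMultiplicity a = 0
                rw [h8, if_neg (by decide), mul_zero]
            · intro _ h9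
              exfalso
              have h10 := congrFun h9 c1
              simp only [h8, if_true, mul_one, Pi.zero_apply] at h10
              have := hu.1
              omega
            · intro h9
              exfalso
              have h10 := congrFun h9 c1
              simp only [h8, if_true, mul_one, Pi.zero_apply] at h10
              have := hu.1
              omega
            · apply le_of_eq
              have h9 : ∑ c, (e l i c : ℝ) * (f i c).rootMultiplicity a = e l i c1 := by
                rw [Finset.sum_eq_single c1]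
                · rw [h8, if_pos rfl]; simp
                · intro c _ hcc
                  rw [h8, if_neg hcc]; simp
                · intro h
                  exact absurd (Finset.mem_univ _) h
              have h10 : ∑ c, (((c0 * (f i c).rootMultiplicity a : ℕ)) : ℝ) * y l i c =
                  c0 * y l i c1 := by
                rw [Finset.sum_eq_single c1]
                · rw [h8, if_pos rfl]; simp
                · intro c _ hcc
                  rw [h8, if_neg hcc]; simp
                · intro h
                  exact absurd (Finset.mem_univ _) h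
              rw [h9, h10, he']
              ring
          · push Not at hroot
            have h8 : ∀ c, (f i c).rootMultiplicity a = 0 := fun c =>
              Polynomial.rootMultiplicity_eq_zero (hroot c)
            have h9 : ∑ c, (e l i c : ℝ) * (f i c).rootMultiplicity a + μ = μ := by
              simp [h8]
            rw [h9] at h6
            refine ⟨_, 0, fun c => ?_, Or.inl rfl, h6, fun _ _ => ?_, fun _ => by positivity, ?_⟩
            · rw [h7, h8, mul_zero]
              rfl
            · nlinarith
            · simp only [Pi.zero_apply, Nat.cast_zero, zero_mul, Finset.sum_const_zero, mul_zero]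
              positivity
        · have h5 := hfrm.2 u hinf
          rw [← hF] at h5
          have h6 := hLG _ h5
          have h9 : -(∑ c, (e l i c : ℝ) * (f i c).natDegree) - μ = μ := by
            have h10 : ∑ c, (e l i c : ℝ) * (f i c).natDegree =
                μ * (∑ c, ((f i c).natDegree : ℝ) * (y l i c : ℝ)) -
                μ * ∑ c, ((f i c).natDegree : ℝ) := by
              rw [Finset.mul_sum, Finset.mul_sum, ← Finset.sum_sub_distrib]
              refine Finset.sum_congr rfl fun c _ => ?_
              rw [he']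
              ring
            rw [h10, hyd]
            ring
          rw [h9] at h6
          refine ⟨_, 0, fun c => ?_, Or.inl rfl, h6, fun _ _ => ?_, fun _ => by positivity, ?_⟩
          · rw [hev, (hMu k (MM k x i) (X i) (hX i) (f i c) (hfne i c) u).2 hinf, mul_zero]
            rfl
          · nlinarith
          · simp only [Pi.zero_apply, Nat.cast_zero, zero_mul, Finset.sum_const_zero, mul_zero]
            positivity
      · push Not at hcon
        have hev : ∀ c, (pdiv (X i) (hX i).tr (f i c) (hfne i c)).ev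
            (fun y => w.ord (y : L)) = 0 := by
          intro c
          have := (pdiv (X i) (hX i).tr (f i c) (hfne i c)).ev_scale
            (o := fun y => w.ord (y : L)) (o' := fun _ => 0) le_rfl
            (fun y => by rw [mul_zero]; exact hcon y)
          rwa [zero_mul] at this
        refine ⟨0, 0, fun c => by rw [hev]; rfl, Or.inl rfl,
          lg_triv (fun f => hcon f) (fun _ => X i) _, fun h => ?_, fun _ => le_rfl, by simp⟩
        obtain ⟨f, hf⟩ := h
        exact absurd (hcon f) hf
    choose γ d hd hsup hLG hγ1 hγ0 hγ2 using hfac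
    refine ⟨γ, ?_, hLG⟩
    by_cases hall : d = 0
    · -- all multiplicities are zero
      have h1 := hγ1 i0 ⟨f0, hf0⟩ (congrFun hall i0)
      exact h1.trans (Finset.single_le_sum (fun i _ => hγ0 i (congrFun hall i))
        (Finset.mem_univ i0))
    · have hadm : Adm A m d := by
        refine ⟨hall, hsup, fun j => ?_⟩
        have h1 := hc.dvd_place hX hXL w j
        have h2 : ∑ i, ∑ c, A j i c *
            (pdiv (X i) (hX i).tr (f i c) (hc.f_ne i c)).ev (fun y => w.ord (y : L)) =
            ∑ i, ∑ c, A j i c * (d i c : ℤ) :=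
          Finset.sum_congr rfl fun i _ => Finset.sum_congr rfl fun c _ => by rw [hd i c]
        rwa [h2] at h1
      have h1 := (hyP l).2 d hadm
      have h2 : (1 : ℝ) ≤ ∑ i, ∑ c, (d i c : ℝ) * (y l i c : ℝ) := by
        have h3 : ((1 : ℚ) : ℝ) ≤ ((∑ i, ∑ c, (d i c : ℚ) * y l i c : ℚ) : ℝ) := by
          exact_mod_cast h1
        push_cast at h3
        exact h3
      have hμ0 : (0 : ℝ) ≤ μ := Nat.cast_nonneg μ
      calc (μ : ℝ) = μ * 1 := (mul_one _).symm
        _ ≤ μ * ∑ i, ∑ c, (d i c : ℝ) * (y l i c : ℝ) := mul_le_mul_of_nonneg_left h2 hμ0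
        _ = ∑ i, μ * ∑ c, (d i c : ℝ) * (y l i c : ℝ) := by rw [Finset.mul_sum]
        _ ≤ ∑ i, γ i := Finset.sum_le_sum fun i _ => hγ2 i

end

end Pool.Agent.K1H17.LP
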