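import Mathlib

/-! Statements of auxiliary results: polyhedra and Laurent monomials. -/

set_option autoImplicit false

open Polynomial

namespace Pool.Agent.K1H17.LP

/-- A rational polyhedron. -/
def Pol {r : ℕ} {J : Type} (a : J → Fin r → ℚ) (b : J → ℚ) : Set (Fin r → ℚ) :=
  {s | ∀ j, 0 ≤ ∑ i, a j i * s i + b j}

/-- If the polyhedron is empty, its large multiples stay empty after a bounded perturbation. -/
def S_EMP : Prop := ∀ (r : ℕ) (J : Type) [Finite J] (a : J → Fin r → ℚ) (b : J → ℚ),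
  Pol a b = ∅ → ∀ C : ℝ, ∃ M0 : ℕ, ∀ M : ℕ, M0 ≤ M → ∀ t : Fin r → ℤ,
    ∃ j, ∑ i, (a j i : ℝ) * t i + M * b j < -C

/-- The number of integral points of the multiples of a polyhedron, after a bounded perturbation. -/
def S_CNT : Prop := ∀ (r : ℕ) (J : Type) [Finite J] (a : J → Fin r → ℚ) (b : J → ℚ),
  (Pol a b).Nonempty → ∀ C R : ℝ, ∃ C' : ℕ, ∀ M : ℕ, 1 ≤ M → ∀ F : Finset (Fin r → ℤ),
    (∀ t ∈ F, (∀ i, |(t i : ℝ)| ≤ R * M) ∧ ∀ j, -C ≤ ∑ i, (a j i : ℝ) * t i + M * b j) →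
    F.card ≤ C' * M ^ Module.finrank ℚ (vectorSpan ℚ (Pol a b))

/-- Products of powers of polynomials in independent variables are algebraically independent. -/
def S_IND : Prop := ∀ (k L : Type) [Field k] [IsAlgClosed k] [CharZero k] [Field L] [Algebra k L]
  (r h : ℕ) (x : Fin r → L) (f : Fin r → Fin 2 → k[X]) (u : Fin h → Fin r → Fin 2 → ℤ),
  AlgebraicIndependent k x → (∀ i c, 1 ≤ (f i c).natDegree) → (∀ i, IsCoprime (f i 0) (f i 1)) →
  (∀ l i, ∑ c, u l i c * ((f i c).natDegree : ℤ) = 0) →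
  LinearIndependent ℚ (fun l => fun i => (u l i 0 : ℚ)) →
  AlgebraicIndependent k fun l => ∏ i, ∏ c, (aeval (x i) (f i c)) ^ u l i c

end Pool.Agent.K1H17.LP
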