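import Pool.Agent.K1H17.LP.Lw2
import Pool.Agent.K1H36.LP.Cnt
import Pool.Agent.K1H24.LP.Emp
import Pool.Agent.K1H24.LP.Res
import Pool.Agent.K1H65.LP.Adp2
import Pool.Agent.K1H65.LP.Ind
import Pool.Agent.K1H60.LP.Deg
import Pool.Agent.K1H33.LP.Frm

/-! Abelian covers of products of lines: the final statement. -/

set_option autoImplicit false
set_option linter.overlappingInstances false
set_option linter.unusedSectionVars false
set_option linter.unusedVariables false

open FF IntermediateField Polynomial Pool.Agent.W619.PQ Pool.Agent.W619.PL Pool.Agent.W619.TW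
  Pool.Agent.W603.LV Pool.Agent.W619.Y Pool.Agent.W672.PG Pool.Agent.W824.PG Pool.Agent.Y174
  Pool.Agent.K1H17.IS Pool.Agent.K1H17.TP

namespace Pool.Agent.K1H17.LP

section

variable {k : Type} [Field k] [CharZero k] [IsAlgClosed k] {L : Type} [Field L] [Algebra k L]
  {r s : ℕ} {x : Fin r → L} {f : Fin r → Fin 2 → k[X]} {A : Fin s → Fin r → Fin 2 → ℤ}
  {m : Fin s → ℕ} {z : Fin s → L}

theorem IsLineCover.main0 (hP : S_PLC) (hMu : S_MUL) (hc : IsLineCover x f A m z) :
    (Polytope A m (fun i c => (f i c).natDegree) = ∅ ∧ NumNeg k L r (fun _ => False)) ∨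
    ((Polytope A m (fun i c => (f i c).natDegree)).Nonempty ∧
      KodNum k L r (affDim (Polytope A m fun i c => (f i c).natDegree))) := by
  obtain ⟨h1, h2⟩ := hc.num hP hMu (Pool.Agent.K1H60.LP.t_DEG hP) Pool.Agent.K1H65.LP.t_ADP2
    Pool.Agent.K1H24.LP.t_RES Pool.Agent.K1H24.LP.t_EMP Pool.Agent.K1H36.LP.t_CNT
  rcases Set.eq_empty_or_nonempty (Polytope A m (fun i c => (f i c).natDegree)) with hE | hne
  · exact Or.inl ⟨hE, h1 hE⟩
  · right
    have h3 := hc.kod hP hMu Pool.Agent.K1H33.LP.t_FRM Pool.Agent.K1H65.LP.t_IND hne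
    exact ⟨hne, h3, Pool.Agent.W300.PG.TRGE.main k L _ _ hc.total h3, h2 hne⟩

end

end Pool.Agent.K1H17.LP
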