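import Pool.Agent.K1H17.LP.Stm0
import Pool.Agent.K1H17.LP.Defs
import Pool.Agent.K1H17.MC.FA

/-! The polytope in coordinates. -/

set_option autoImplicit false
set_option linter.overlappingInstances false
set_option linter.unusedSectionVars false
set_option linter.unusedVariables false

namespace Pool.Agent.K1H17.LP

section

variable {r s : ℕ} {A : Fin s → Fin r → Fin 2 → ℤ} {m : Fin s → ℕ} {d : Fin r → Fin 2 → ℕ}

/-- the coefficients of the inequality of `v` in the coordinates `y i 0` -/
def ca (d : Fin r → Fin 2 → ℕ) (v : Fin r → Fin 2 → ℕ) (i : Fin r) : ℚ :=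
  v i 0 - v i 1 * d i 0 / d i 1

/-- the constant of the inequality of `v` -/
def cb (d : Fin r → Fin 2 → ℕ) (v : Fin r → Fin 2 → ℕ) : ℚ :=
  ∑ i, v i 1 * ((∑ c, (d i c : ℚ) - 2) / d i 1) - 1

/-- the point with the given coordinates `y i 0` -/
def toY (d : Fin r → Fin 2 → ℕ) (t : Fin r → ℚ) : Fin r → Fin 2 → ℚ := fun i =>
  ![t i, (∑ c, (d i c : ℚ) - 2 - d i 0 * t i) / d i 1]

theorem toY_ineq (v : Fin r → Fin 2 → ℕ) (t : Fin r → ℚ) :
    ∑ i, ∑ c, (v i c : ℚ) * toY d t i c = ∑ i, ca d v i * t i + cb d v + 1 := by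
  rw [cb, add_assoc, sub_add_cancel, ← Finset.sum_add_distrib]
  refine Finset.sum_congr rfl fun i _ => ?_
  rw [Fin.sum_univ_two, ca]
  change (v i 0 : ℚ) * t i + v i 1 * ((∑ c, (d i c : ℚ) - 2 - d i 0 * t i) / d i 1) = _
  ring

theorem toY_eq (hd : ∀ i c, 1 ≤ d i c) (t : Fin r → ℚ) (i : Fin r) :
    ∑ c, (d i c : ℚ) * toY d t i c = ∑ c, (d i c : ℚ) - 2 := by
  have h1 : (d i 1 : ℚ) ≠ 0 := by
    have := hd i 1
    positivity
  rw [Fin.sum_univ_two]
  change (d i 0 : ℚ) * t i + d i 1 * ((∑ c, (d i c : ℚ) - 2 - d i 0 * t i) / d i 1) = _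
  field_simp
  ring

theorem toY_of (hd : ∀ i c, 1 ≤ d i c) {y : Fin r → Fin 2 → ℚ}
    (hy : ∀ i, ∑ c, (d i c : ℚ) * y i c = ∑ c, (d i c : ℚ) - 2) : toY d (fun i => y i 0) = y := by
  funext i c
  have h1 : (d i 1 : ℚ) ≠ 0 := by
    have := hd i 1
    positivity
  have h2 := hy i
  rw [Fin.sum_univ_two (f := fun c => (d i c : ℚ) * y i c)] at h2
  fin_cases c
  · rfl
  · change (∑ c, (d i c : ℚ) - 2 - d i 0 * y i 0) / d i 1 = y i 1
    rw [← h2]
    field_simp
    ring

theorem adm_single (hm : ∀ j, 0 < m j) (i : Fin r) (c : Fin 2) :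
    Adm A m (Pi.single i (Pi.single c (∏ j, m j))) := by
  classical
  refine ⟨fun h => ?_, fun i' => ?_, fun j => ?_⟩
  · have h1 := congrFun (congrFun h i) c
    rw [Pi.single_eq_same, Pi.single_eq_same] at h1
    exact (Finset.prod_pos fun j _ => hm j).ne' h1
  · by_cases hi : i' = i
    · subst hi
      rw [Pi.single_eq_same]
      fin_cases c
      · right
        exact Pi.single_eq_of_ne (by decide) _
      · left
        exact Pi.single_eq_of_ne (by decide) _
    · left
      rw [Pi.single_eq_of_ne hi]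
      rfl
  · refine Finset.dvd_sum fun i' _ => Finset.dvd_sum fun c' _ => ?_
    by_cases hi : i' = i
    · subst hi
      rw [Pi.single_eq_same]
      by_cases hc : c' = c
      · subst hc
        rw [Pi.single_eq_same]
        refine Dvd.dvd.mul_left ?_ _
        exact_mod_cast Finset.dvd_prod_of_mem m (Finset.mem_univ j)
      · rw [Pi.single_eq_of_ne hc]
        simp
    · rw [Pi.single_eq_of_ne hi]
      simp

/-- Finitely many inequalities suffice. -/
theorem polytope_data (hm : ∀ j, 0 < m j) (hd : ∀ i c, 1 ≤ d i c) :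
    ∃ V : Finset (Fin r → Fin 2 → ℕ), (∀ v ∈ V, Adm A m v) ∧
      Polytope A m d = toY d '' Pol (fun v : V => ca d v.1) (fun v : V => cb d v.1) := by
  classical
  by_cases hr : ∃ v, Adm A m v
  · obtain ⟨v0, hv0⟩ := hr
    have : Nonempty {v // Adm A m v} := ⟨⟨v0, hv0⟩⟩
    obtain ⟨S, hS⟩ := Pool.Agent.K1H17.MC.dickson (Γ := {v // Adm A m v})
      (ι := Fin r × Fin 2) fun v p => v.1 p.1 p.2
    refine ⟨S.image Subtype.val, fun v hv => ?_, ?_⟩
    · obtain ⟨w, -, rfl⟩ := Finset.mem_image.1 hv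
      exact w.2
    have hdom : ∀ v, Adm A m v → ∃ w ∈ S.image Subtype.val, ∀ i c, w i c ≤ v i c := by
      intro v hv
      obtain ⟨w, hw, hle⟩ := hS ⟨v, hv⟩
      exact ⟨w.1, Finset.mem_image_of_mem _ hw, fun i c => hle (i, c)⟩
    ext y
    constructor
    · rintro ⟨h1, h2⟩
      refine ⟨fun i => y i 0, fun v => ?_, toY_of hd h1⟩
      obtain ⟨w, -, hw⟩ := Finset.mem_image.1 v.2
      have h3 := h2 v.1 (by rw [← hw]; exact w.2)
      have h4 := toY_ineq (d := d) v.1 fun i => y i 0
      rw [toY_of hd h1] at h4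
      rw [h4] at h3
      linarith
    · rintro ⟨t, ht, rfl⟩
      have h3 : ∀ w ∈ S.image Subtype.val, 1 ≤ ∑ i, ∑ c, (w i c : ℚ) * toY d t i c := by
        intro w hw
        have h4 := ht ⟨w, hw⟩
        rw [toY_ineq]
        linarith
      have h0 : ∀ i c, 0 ≤ toY d t i c := by
        intro i c
        obtain ⟨w, hw, hle⟩ := hdom _ (adm_single (A := A) hm i c)
        have h4 := h3 w hw
        have h5 : ∑ i', ∑ c', (w i' c' : ℚ) * toY d t i' c' = w i c * toY d t i c := by
          rw [Finset.sum_eq_single i, Finset.sum_eq_single c]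
          · intro c' _ hc'
            have h6 := hle i c'
            rw [Pi.single_eq_same, Pi.single_eq_of_ne hc'] at h6
            rw [Nat.le_zero.1 h6, Nat.cast_zero, zero_mul]
          · intro h
            exact absurd (Finset.mem_univ _) h
          · intro i' _ hi'
            refine Finset.sum_eq_zero fun c' _ => ?_
            have h6 := hle i' c'
            rw [Pi.single_eq_of_ne hi'] at h6
            rw [Nat.le_zero.1 h6, Nat.cast_zero, zero_mul]
          · intro h
            exact absurd (Finset.mem_univ _) h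
        rw [h5] at h4
        by_contra h7
        push Not at h7
        have h8 : (w i c : ℚ) * toY d t i c ≤ 0 :=
          mul_nonpos_of_nonneg_of_nonpos (Nat.cast_nonneg _) h7.le
        linarith
      refine ⟨toY_eq hd t, fun v hv => ?_⟩
      obtain ⟨w, hw, hle⟩ := hdom v hv
      refine (h3 w hw).trans (Finset.sum_le_sum fun i _ => Finset.sum_le_sum fun c _ => ?_)
      exact mul_le_mul_of_nonneg_right (by exact_mod_cast hle i c) (h0 i c)
  · push Not at hr
    refine ⟨∅, by simp, ?_⟩
    ext y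
    constructor
    · rintro ⟨h1, -⟩
      exact ⟨fun i => y i 0, fun v => absurd v.2 (Finset.notMem_empty _), toY_of hd h1⟩
    · rintro ⟨t, -, rfl⟩
      exact ⟨toY_eq hd t, fun v hv => absurd hv (hr v)⟩

/-- The affine map. -/
def affY (d : Fin r → Fin 2 → ℕ) : (Fin r → ℚ) →ᵃ[ℚ] (Fin r → Fin 2 → ℚ) where
  toFun := toY d
  linear :=
    { toFun := fun t i => ![t i, -(d i 0 : ℚ) * t i / d i 1]
      map_add' := fun a b => by
        funext i c
        fin_cases c
        · rfl
        · change -(d i 0 : ℚ) * (a i + b i) / d i 1 = -(d i 0 : ℚ) * a i / d i 1 + -(d i 0 : ℚ) * b i / d i 1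
          ring
      map_smul' := fun a b => by
        funext i c
        fin_cases c
        · rfl
        · change -(d i 0 : ℚ) * (a * b i) / d i 1 = a * (-(d i 0 : ℚ) * b i / d i 1)
          ring }
  map_vadd' := fun a b => by
    funext i c
    fin_cases c
    · rfl
    · change (∑ c, (d i c : ℚ) - 2 - d i 0 * (b i + a i)) / d i 1 =
        -(d i 0 : ℚ) * b i / d i 1 + (∑ c, (d i c : ℚ) - 2 - d i 0 * a i) / d i 1
      ring

theorem affDim_image (P : Set (Fin r → ℚ)) :
    affDim (toY d '' P) = Module.finrank ℚ (vectorSpan ℚ P) := by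
  have h1 := (affY d).vectorSpan_image_eq_submodule_map (s := P)
  have h2 : (affY d) '' P = toY d '' P := rfl
  rw [affDim, ← h2, ← h1]
  refine LinearEquiv.finrank_eq (Submodule.equivMapOfInjective _ ?_ _).symm
  intro a b hab
  funext i
  have h3 := congrFun (congrFun hab i) 0
  exact h3

end

end Pool.Agent.K1H17.LP
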