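import Pool.Agent.K1H17.TP.Ad3

/-! Statements of auxiliary results: bases adapted to two families of places. -/

set_option autoImplicit false

open FF Pool.Agent.W603.LV Pool.Agent.K1H17.TP

namespace Pool.Agent.K1H17.LP

/-- A finite-dimensional space has a basis which is adapted to two families of places. -/
def S_ADP2 : Prop := ∀ (k K : Type) [Field k] [Field K] [Algebra k K] (T0 T1 : Type) [Finite T0]
  [Finite T1] [Nonempty T0] [Nonempty T1] (v0 : T0 → Place k K) (s0 : T0 → ℤ)
  (v1 : T1 → Place k K) (s1 : T1 → ℤ) (V : Submodule k K) [FiniteDimensional k V],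
  ∃ (κ : Type) (_ : Fintype κ) (b : κ → K) (o0 o1 : κ → ℤ), AdpT v0 s0 b o0 ∧ AdpT v1 s1 b o1 ∧
    (∀ j, b j ∈ V) ∧ Submodule.span k (Set.range b) = V

/-- At places with the residue field `k`, at most `T.card` members of an adapted family have the
same order. -/
def S_RES : Prop := ∀ (k K : Type) [Field k] [Field K] [Algebra k K] (T : Type) [Fintype T]
  (v : T → Place k K) (s : T → ℤ),
  (∀ t (x : K), Ge (v t) 0 x → ∃ c : k, Ge (v t) 1 (x - algebraMap k K c)) →
  ∀ (κ : Type) [Fintype κ] (b : κ → K) (o : κ → ℤ), AdpT v s b o →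
  ∀ (n : ℤ) (F : Finset κ), (∀ l ∈ F, o l = n) → F.card ≤ Fintype.card T

end Pool.Agent.K1H17.LP
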