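import Pool.Agent.K1H17.TP.Ps

/-! Statements of auxiliary results: the places and the forms on the projective line. -/

set_option autoImplicit false

open FF Polynomial Pool.Agent.W619.PQ Pool.Agent.W619.TW Pool.Agent.W603.LV Pool.Agent.Y174 Pool.Agent.K1H17.IS
  Pool.Agent.K1H17.TP

namespace Pool.Agent.K1H17.LP

section

variable {k K : Type} [Field k] [Field K] [Algebra k K]

/-- `K` is the field of rational functions in `X`. -/
structure IsLine (k : Type) {K : Type} [Field k] [Field K] [Algebra k K] (X : K) : Prop where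
  tr : Transcendental k X
  top : IntermediateField.adjoin k {X} = ⊤

/-- The zeros in the projective line of the polynomial `f`, as a divisor: `div f (X) + deg f * ∞`. -/
noncomputable def pdiv (X : K) (hX : Transcendental k X) (f : k[X]) (hf : f ≠ 0) : DivData K where
  τ := aeval X f
  N := f.natDegree
  S := by classical exact {1, X}
  ne0 := fun h => hf ((transcendental_iff.1 hX) f h)
  ne := by classical exact ⟨1, Finset.mem_insert_self _ _⟩

/-- `q` is the place of the point `a` of the affine line. -/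
def AtPt (X : K) (q : Place k K) (a : k) : Prop :=
  ∀ p : k[X], p ≠ 0 → q.ord (aeval X p) = p.rootMultiplicity a

/-- `q` is the place at infinity. -/
def AtInf (X : K) (q : Place k K) : Prop :=
  ∀ p : k[X], p ≠ 0 → q.ord (aeval X p) = -(p.natDegree : ℤ)

end

/-- The places of the projective line. -/
def S_PLC : Prop := ∀ (k K : Type) [Field k] [IsAlgClosed k] [Field K] [Algebra k K] (X : K),
  IsLine k X → (∀ q : Place k K, (∃ a, AtPt X q a) ∨ AtInf X q) ∧
    (∀ a : k, ∃ q : Place k K, AtPt X q a) ∧ (∃ q : Place k K, AtInf X q) ∧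
    (∀ (q q' : Place k K) (a : k), AtPt X q a → AtPt X q' a → q = q') ∧
    (∀ q q' : Place k K, AtInf X q → AtInf X q' → q = q') ∧
    (∀ q : Place k K, IsDivisorial q 1) ∧
    (∀ (q : Place k K) (z : K), Ge q 0 z → ∃ c : k, Ge q 1 (z - algebraMap k K c))

/-- The multiplicities of the divisors of polynomials. -/
def S_MUL : Prop := ∀ (k K : Type) [Field k] [IsAlgClosed k] [Field K] [Algebra k K] (X : K)
  (hX : IsLine k X) (f : k[X]) (hf : f ≠ 0) (q : Place k K),
  (∀ a, AtPt X q a → (pdiv X hX.tr f hf).ev q.ord = f.rootMultiplicity a) ∧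
  (AtInf X q → (pdiv X hX.tr f hf).ev q.ord = 0)

/-- The logarithmic order of the forms `∏ (f c) ^ (e c) (dX) ^ μ`. -/
def S_FRM : Prop := ∀ (k K : Type) [Field k] [CharZero k] [IsAlgClosed k] [Field K] [Algebra k K]
  (X : K), IsLine k X → ∀ (f : Fin 2 → k[X]) (e : Fin 2 → ℤ) (μ : ℕ),
  Squarefree (f 0 * f 1) →
  (∀ (q : Place k K) (a : k), AtPt X q a →
    LogGe 1 q (fun D => (∏ c, aeval X (f c) ^ e c) *
      (Matrix.of fun i _ => D i X : Matrix (Fin 1) (Fin 1) K).det ^ μ)
      (∑ c, (e c : ℝ) * (f c).rootMultiplicity a + μ)) ∧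
  (∀ (q : Place k K), AtInf X q →
    LogGe 1 q (fun D => (∏ c, aeval X (f c) ^ e c) *
      (Matrix.of fun i _ => D i X : Matrix (Fin 1) (Fin 1) K).det ^ μ)
      (-(∑ c, (e c : ℝ) * (f c).natDegree) - μ))

/-- The boundary: the places of the zeros of the polynomials. -/
def bd {k K : Type} [Field k] [Field K] [Algebra k K] (X : K) (f : Fin 2 → k[X])
    (q : Place k K) : Prop := ∃ c a, AtPt X q a ∧ (f c).IsRoot a

/-- The degree of the forms with given logarithmic orders: if `ω ≠ 0` is a form of weight `m` whose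
orders are at least those of a member of `S` (on logarithmic vector fields along the zeros of the
`f c`), and the logarithmic orders at the zeros of `f c` are at least `γ c`, then
`∑ (deg f c) (γ c) ≤ m (∑ deg f c - 2) + C`. -/
def S_DEG : Prop := ∀ (k K : Type) [Field k] [CharZero k] [IsAlgClosed k] [Field K] [Algebra k K]
  (X : K), IsLine k X → ∀ (f : Fin 2 → k[X]), Squarefree (f 0 * f 1) → ∀ S : Finset K, ∃ C : ℝ,
  ∀ (m : ℕ) (ω : (Fin 1 → Derivation k K K) → K) (γ : Fin 2 → ℝ),
    IsSec k K 1 (bd X f) S m 1 ω →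
    (∀ c a q, AtPt X q a → (f c).IsRoot a → LogGe 1 q ω (γ c)) → ω ≠ 0 →
    ∑ c, ((f c).natDegree : ℝ) * γ c ≤ m * (∑ c, ((f c).natDegree : ℝ) - 2) + C

end Pool.Agent.K1H17.LP
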