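import Pool.Agent.K1H17.TP.Ct
import Pool.Agent.K1H17.TP.Cv
import Pool.Agent.R885.G10
import Pool.Agent.K1H17.LP.Stm1
import Pool.Agent.K1H17.LP.Defs

/-! The upper bound for the number of sections on a product of lines with a boundary. -/

set_option autoImplicit false
set_option linter.overlappingInstances false
set_option linter.unusedSectionVars false
set_option linter.unusedVariables false

open FF IntermediateField Polynomial Pool.Agent.W619.PQ Pool.Agent.W619.PL Pool.Agent.W619.TW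
  Pool.Agent.W603.LV Pool.Agent.W619.Y Pool.Agent.W672.PG Pool.Agent.W824.PG Pool.Agent.Y174
  Pool.Agent.K1H17.IS Pool.Agent.W460.PG.ONE Pool.Agent.K1H17.TP

namespace Pool.Agent.K1H17.LP

/-- the zeros -/
abbrev Zr {k : Type} [Field k] (f : k[X]) : Type := {a : k // f.IsRoot a}

section

variable {k : Type} [Field k] [CharZero k] [IsAlgClosed k]

theorem zr_finite {f : k[X]} (hf : f ≠ 0) : Finite (Zr f) := by
  classical
  have h1 : {a : k | f.IsRoot a} ⊆ (f.roots.toFinset : Set k) := fun a ha => by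
    simpa [hf] using ha
  exact ((Finset.finite_toSet _).subset h1).to_subtype

theorem zr_nonempty {f : k[X]} (hf : 1 ≤ f.natDegree) : Nonempty (Zr f) := by
  obtain ⟨a, ha⟩ := IsAlgClosed.exists_root f (by
    intro h
    rw [Polynomial.degree_eq_natDegree (by rintro rfl; simp at hf)] at h
    have h2 : f.natDegree = 0 := by exact_mod_cast h
    omega)
  exact ⟨⟨a, ha⟩⟩

variable {K : Type} [Field K] [Algebra k K] {X : K}

theorem line_basis (hX : IsLine k X) :
    IsTranscendenceBasis k (fun _ : Fin 1 => X) := by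
  have h1 : AlgebraicIndependent k (fun _ : Fin 1 => X) :=
    (algebraicIndependent_unique_type_iff (ι := Fin 1)).2 hX.tr
  refine Pool.Agent.R885.basis_of_ind h1 ?_
  constructor
  intro z
  have hz : z ∈ IntermediateField.adjoin k (Set.range fun _ : Fin 1 => X) := by
    rw [Set.range_const, hX.top]; trivial
  exact isAlgebraic_algebraMap
    (R := IntermediateField.adjoin k (Set.range fun _ : Fin 1 => X)) (A := K) ⟨z, hz⟩

theorem line_trdeg (hX : IsLine k X) : Algebra.trdeg k K = (1 : ℕ) := by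
  rw [← (line_basis hX).cardinalMk_eq_trdeg]
  simp

theorem line_ess (hX : IsLine k X) : Algebra.EssFiniteType k K := by
  classical
  have h1 : (⊤ : IntermediateField k K).FG := by
    refine ⟨{X}, ?_⟩
    rw [Finset.coe_singleton]
    exact hX.top
  exact (Algebra.EssFiniteType.iff_of_algEquiv IntermediateField.topEquiv).1
    (essFiniteType_iff.2 h1)

/-- The spaces of sections are finite-dimensional. -/
theorem line_fin (hP : S_PLC) (hX : IsLine k X) {f : Fin 2 → k[X]} (hf : ∀ c, f c ≠ 0)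
    (S : Finset K) (M : ℕ) (hM : 1 ≤ M) :
    Module.Finite k (VV k (bd X f) S M 1 (fun _ : Fin 1 => X)) := by
  classical
  have hn := line_trdeg hX
  have hess := line_ess hX
  have h1 := Pool.Agent.R885.pair_top hess hn (δ := fun q => if bd X f q then (1 : ℝ) else 0)
    (G := Finset.univ.image fun c => aeval X (f c)) (fun q hq => by
      have hb : bd X f q := by
        by_contra h
        simp only [h, if_false] at hq
        exact lt_irrefl _ hq
      obtain ⟨c, a, h2, h3⟩ := hb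
      refine ⟨_, Finset.mem_image_of_mem _ (Finset.mem_univ c), ?_⟩
      rw [h2 _ (hf c)]
      have h4 := (Polynomial.rootMultiplicity_pos (hf c)).2 h3
      omega) (fun q => by
      show (if bd X f q then (1 : ℝ) else 0) ≤ 1
      split_ifs <;> norm_num)
  obtain ⟨C, hC⟩ := h1 S
  refine (finrank_VV (bd X f) S M 1 _ (line_basis hX) (C * M ^ 1) fun N hN => ?_).1
  obtain ⟨ω, hω, hsec⟩ := hN
  exact hC M N hM ⟨ω, hω, fun l => pair_of_sec hn hess (fun v hv => if_pos hv)
    (fun v hv => if_neg hv) (hsec l)⟩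

/-- The multiplicity of the boundary. -/
theorem bd_iff (hP : S_PLC) (hMu : S_MUL) (hX : IsLine k X) {f : Fin 2 → k[X]}
    (hf : ∀ c, f c ≠ 0) (q : Place k K) :
    bd X f q ↔ ∃ c, (pdiv X hX.tr (f c) (hf c)).ev q.ord ≠ 0 := by
  constructor
  · rintro ⟨c, a, h1, h2⟩
    refine ⟨c, ?_⟩
    rw [(hMu k K X hX (f c) (hf c) q).1 a h1]
    have h4 := (Polynomial.rootMultiplicity_pos (hf c)).2 h2
    omega
  · rintro ⟨c, hc⟩
    rcases (hP k K X hX).1 q with ⟨a, ha⟩ | hinf
    · refine ⟨c, a, ha, ?_⟩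
      rw [(hMu k K X hX (f c) (hf c) q).1 a ha] at hc
      by_contra h0
      rw [Polynomial.rootMultiplicity_eq_zero h0] at hc
      exact hc rfl
    · exact absurd ((hMu k K X hX (f c) (hf c) q).2 hinf) hc

end

section

variable {k : Type} [Field k] [CharZero k] [IsAlgClosed k] {r s : ℕ}
  {L : Type} [Field L] [Algebra k L] {K : Fin r → Type} [∀ i, Field (K i)]
  [∀ i, Algebra k (K i)] {φ : ∀ i, K i →ₐ[k] L}

/-- The upper bound. -/
theorem ub_main (hP : S_PLC) (hMu : S_MUL) (hDg : S_DEG) (hA : S_ADP2) (hR : S_RES)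
    (hL : Algebra.trdeg k L = r) {X : ∀ i, K i} (hX : ∀ i, IsLine k (X i))
    {f : Fin r → Fin 2 → k[X]} (hf : ∀ i c, f i c ≠ 0) (hd : ∀ i c, 1 ≤ (f i c).natDegree)
    (hsq : ∀ i, Squarefree (f i 0 * f i 1)) (hsup : (⨆ i, (φ i).fieldRange) = ⊤)
    {p : ∀ i c, Zr (f i c) → Place k (K i)} (hp : ∀ i c t, AtPt (X i) (p i c t) t.1)
    {A : Fin s → Fin r → Fin 2 → ℤ} {m : Fin s → ℕ} {δ : Place k L → ℝ} (hδ1 : ∀ w, δ w ≤ 1)
    (hδ0 : ∀ w : Place k L,
      (∀ i c, (pdiv (X i) (hX i).tr (f i c) (hf i c)).ev (fun x => w.ord (φ i x)) = 0) → δ w ≤ 0)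
    (hδm : ∀ (ch : Fin r → Fin 2) (τ : ∀ i, Zr (f i (ch i))) (g : ℕ) (lam : Fin r → ℕ)
      (w : Place k L), 0 < g → Adm A m (fun i c => if c = ch i then g * lam i else 0) →
      IsMono φ r (fun i => p i (ch i) (τ i)) lam w → δ w ≤ 1 - 1 / (g : ℝ)) :
    ∃ Q : ℕ, ∀ (S : Finset L) (V : Finset (Fin r → Fin 2 → ℕ)), (∀ v ∈ V, Adm A m v) →
      ∃ C R : ℝ, ∀ M N : ℕ, 1 ≤ M → HasIndep k L r N (PairSec k L r δ S M 1) →
        ∃ F : Finset (Fin r → ℤ), N ≤ Q * F.card ∧ ∀ t ∈ F, (∀ i, |(t i : ℝ)| ≤ R * M) ∧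
          ∀ v ∈ V, (M : ℝ) - C ≤ ∑ i, ((v i 0 : ℝ) * t i + (v i 1 : ℝ) *
            ((M * (∑ c, ((f i c).natDegree : ℝ) - 2) - (f i 0).natDegree * t i) /
              (f i 1).natDegree)) := by
  classical
  obtain ⟨a, ha⟩ : ∃ a : Fin r → ℕ, a = fun _ => 1 := ⟨_, rfl⟩
  subst ha
  have hn : r = ∑ i : Fin r, (fun _ => 1 : Fin r → ℕ) i := by simp
  have hK : ∀ i, Algebra.trdeg k (K i) = (1 : ℕ) := fun i => line_trdeg (hX i)
  have hKe : ∀ i, Algebra.EssFiniteType k (K i) := fun i => line_ess (hX i)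
  have hess : Algebra.EssFiniteType k L := ess_of_sup φ hKe hsup
  obtain ⟨y, hy'⟩ : ∃ y : ∀ i, Fin 1 → K i, y = fun i _ => X i := ⟨_, rfl⟩
  have hy : ∀ i, IsTranscendenceBasis k (y i) := fun i => by rw [hy']; exact line_basis (hX i)
  have hfin' : ∀ i (S : Finset (K i)) (M : ℕ), 1 ≤ M →
      Module.Finite k (VV k (bd (X i) (f i)) S M 1 (y i)) := fun i S M hM => by
    rw [hy']; exact line_fin hP (hX i) (hf i) S M hM
  obtain ⟨Y, hY, hfrm, hkun⟩ := kun r L K φ (fun _ => 1) r hn hKe hK hL hsup y hy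
  obtain ⟨E, hE⟩ := Pool.Agent.W636.PG.exists_duals k L r Y hY
  have hTf : ∀ i c, Finite (Zr (f i c)) := fun i c => zr_finite (hf i c)
  have hTn : ∀ i c, Nonempty (Zr (f i c)) := fun i c => zr_nonempty (hd i c)
  have hTft : ∀ i c, Fintype (Zr (f i c)) := fun i c => Fintype.ofFinite _
  have hdiv : ∀ i (q : Place k (K i)), IsDivisorial q 1 := fun i => (hP k (K i) (X i) (hX i)).2.2.2.2.2.1
  choose Dl hDl1 hDl2 hΔ hDl3 using fun i c (t : Zr (f i c)) =>
    exists_lf (hK i) (hKe i) (hdiv i (p i c t))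
  have hΔ0 := fun i c t => hΔ i c t (y i) (hy i)
  -- the value of a form
  have hform : ∀ (m : ℕ) (ω : (Fin r → Derivation k L L) → L), IsPluriForm k L r m ω →
      ω = fun D => ω E * (Matrix.of fun i j => D i (Y j)).det ^ m := by
    intro m ω hω
    funext D
    rw [Pool.Agent.W636.PG.form_eq k L r m Y hY E hE ω hω D, mul_comm]
  -- monomial places
  have hmono : ∀ v : Fin r → Fin 2 → ℕ, Adm A m v → ∃ (ch : Fin r → Fin 2) (g : ℕ)
      (lam : Fin r → ℕ) (w : (∀ i, Zr (f i (ch i))) → Place k L), 0 < g ∧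
      (∀ i c, v i c = if c = ch i then g * lam i else 0) ∧
      (∀ τ, IsMono φ r (fun i => p i (ch i) (τ i)) lam (w τ)) ∧
      ∀ τ, δ (w τ) ≤ 1 - 1 / (g : ℝ) := by
    intro v hv
    obtain ⟨ch, hch⟩ : ∃ ch : Fin r → Fin 2, ∀ i c, c ≠ ch i → v i c = 0 := by
      refine ⟨fun i => if v i 1 = 0 then 0 else 1, fun i c hc => ?_⟩
      change c ≠ if v i 1 = 0 then 0 else 1 at hc
      rcases hv.2.1 i with h0 | h0
      · by_cases h1 : v i 1 = 0
        · rw [if_pos h1] at hc
          obtain rfl : c = 1 := by omega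
          exact h1
        · rw [if_neg h1] at hc
          obtain rfl : c = 0 := by omega
          exact h0
      · rw [if_pos h0] at hc
        obtain rfl : c = 1 := by omega
        exact h0
    obtain ⟨g, hg⟩ : ∃ g : ℕ, g = Finset.univ.gcd fun i => v i (ch i) := ⟨_, rfl⟩
    have hgd : ∀ i, g ∣ v i (ch i) := fun i => by
      rw [hg]; exact Finset.gcd_dvd (Finset.mem_univ i)
    choose lam hlam using hgd
    have hg0 : 0 < g := by
      rcases Nat.eq_zero_or_pos g with h0 | h0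
      · exfalso
        apply hv.1
        funext i c
        by_cases hc : c = ch i
        · rw [hc, hlam i, h0, zero_mul]
          rfl
        · exact hch i c hc
      · exact h0
    have hlam1 : ∀ d : ℕ, (∀ i, d ∣ lam i) → d = 1 := by
      intro d hd
      have h1 : g * d ∣ g := by
        conv_rhs => rw [hg]
        refine Finset.dvd_gcd fun i _ => ?_
        rw [hlam i]
        exact mul_dvd_mul_left g (hd i)
      have h2 : g * d ∣ g * 1 := by rwa [mul_one]
      exact Nat.dvd_one.1 (Nat.dvd_of_mul_dvd_mul_left hg0 h2)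
    choose w hw using fun τ : (∀ i, Zr (f i (ch i))) => mono r L K φ (fun _ => 1) hK
      (by rw [hL, ← hn]) hsup (fun i => p i (ch i) (τ i)) (fun i => hdiv i _) lam hlam1
    rw [← hn] at hw
    have hvv : ∀ i c, v i c = if c = ch i then g * lam i else 0 := by
      intro i c
      by_cases hc : c = ch i
      · rw [if_pos hc, hc, hlam]
      · rw [if_neg hc, hch i c hc]
    refine ⟨ch, g, lam, w, hg0, hvv, hw, fun τ => hδm ch τ g lam (w τ) hg0 ?_ (hw τ)⟩
    have h3 : (fun i c => if c = ch i then g * lam i else 0) = v :=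
      funext fun i => funext fun c => (hvv i c).symm
    rw [h3]
    exact hv
  -- the boundary
  obtain ⟨D, hDdef⟩ : ∃ D : ∀ i, Fin 2 → DivData (K i),
      D = fun i c => pdiv (X i) (hX i).tr (f i c) (hf i c) := ⟨_, rfl⟩
  have hbdi : ∀ i (q : Place k (K i)), bd (X i) (f i) q ↔ ∃ c, (D i c).ev q.ord ≠ 0 := by
    intro i q
    rw [hDdef]
    exact bd_iff hP hMu (hX i) (hf i) q
  obtain ⟨Bd, hBd⟩ : ∃ Bd : Place k L → Prop,
      Bd = fun w => ∃ i c, (D i c).ev (fun x => w.ord (φ i x)) ≠ 0 := ⟨_, rfl⟩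
  have hev0 : ∀ i c (w : Place k L), (∀ x, w.ord (φ i x) = 0) →
      (D i c).ev (fun x => w.ord (φ i x)) = 0 := by
    intro i c w hw
    have := (D i c).ev_scale (o := fun x => w.ord (φ i x)) (o' := fun _ => 0) le_rfl
      (fun x => by rw [mul_zero]; exact hw x)
    rwa [zero_mul] at this
  have H1 : ∀ w : Place k L, (∀ i x, w.ord (φ i x) = 0) → ¬ Bd w := by
    intro w hw hb
    rw [hBd] at hb
    obtain ⟨i, c, hi⟩ := hb
    exact hi (hev0 i c w (hw i))
  have H2 : ∀ i (u : Place k (K i)) (w : Place k L), (∀ x, w.ord (φ i x) = u.ord x) →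
      (∀ i', i' ≠ i → ∀ x, w.ord (φ i' x) = 0) → (Bd w ↔ bd (X i) (f i) u) := by
    intro i u w h1 h2
    have h3 : (fun x => w.ord (φ i x)) = u.ord := funext h1
    rw [hBd, hbdi]
    constructor
    · rintro ⟨i', c, hi'⟩
      by_cases hii : i' = i
      · subst hii
        rw [h3] at hi'
        exact ⟨c, hi'⟩
      · exact absurd (hev0 i' c w (h2 i' hii)) hi'
    · rintro ⟨c, h4⟩
      refine ⟨i, c, ?_⟩
      rw [h3]
      exact h4
  have hsecL : ∀ (S : Finset L) (m : ℕ) (ω : (Fin r → Derivation k L L) → L),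
      PairSec k L r δ S m 1 ω → IsSec k L r Bd S m 1 ω := by
    intro S m ω hω
    refine sec_of_pair hL hess hδ1 (fun w hw => hδ0 w fun i c => ?_) hω
    rw [hBd, hDdef] at hw
    by_contra h0
    exact hw ⟨i, c, h0⟩
  refine ⟨∏ i, Fintype.card (Zr (f i 0)), fun S V hV => ?_⟩
  obtain ⟨b0, S', hb0, hspan⟩ := hkun Bd (fun i => bd (X i) (f i)) H1 H2 S
  choose cc hcc using fun i => hDg k (K i) (X i) (hX i) (f i) (hsq i) (S' i)
  have hCC : ∀ v : Fin r → Fin 2 → ℕ, ∃ C : ℝ, Adm A m v → ∀ (M : ℕ) (G : L),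
      PairSec k L r δ S M 1 (fun D => G * (Matrix.of fun i j => D i (Y j)).det ^ M) →
      ∀ (ι : Fin r → Type) [∀ i, Fintype (ι i)] (b : ∀ i, ι i → K i)
      (o : ∀ i, Fin 2 → ι i → ℤ),
      (∀ i c, AdpT (p i c)
        (fun t => M * (p i c t).ord (Matrix.of fun l c' => Dl i c t l (y i c')).det)
        (b i) (o i c)) →
      ∀ c : (∀ i, ι i) → k, b0 * G = ∑ J, c J • ∏ i, φ i (b i (J i)) → ∀ J, c J ≠ 0 →
        (M : ℝ) - C ≤ ∑ i, ∑ c, (v i c : ℝ) * o i c (J i) := by
    intro v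
    by_cases hv : Adm A m v
    · obtain ⟨ch, g, la, w, hg, hgl, hw, hδw⟩ := hmono v hv
      obtain ⟨C, hC⟩ := est (T := fun i => Zr (f i (ch i))) hL hess hfrm
        (fun i => Dl i (ch i)) (fun i t => hDl2 i (ch i) t)
        (fun i t => hΔ0 i (ch i) t) hw hg hδw S hb0
      refine ⟨C, fun _ M G hsec ι _ b o hb c hc J hJ => ?_⟩
      refine (hC M G hsec ι b (fun i => o i (ch i)) (fun i => hb i (ch i)) c hc J hJ).trans
        (le_of_eq ?_)
      refine Finset.sum_congr rfl fun i _ => ?_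
      rw [Finset.sum_eq_single (ch i)]
      · rw [hgl i, if_pos rfl]
      · intro c _ hc
        rw [hgl i, if_neg hc, Nat.cast_zero, zero_mul]
      · intro h
        exact absurd (Finset.mem_univ _) h
    · exact ⟨0, fun h => absurd h hv⟩
  choose CC hCC using hCC
  -- the lower bound for the orders
  obtain ⟨low, hlow⟩ : ∃ low : ∀ i, Fin 2 → ℝ, ∀ i c, low i c =
      ∑ t, ∑ s ∈ S' i, |((p i c t).ord s : ℝ)| := ⟨_, fun i c => rfl⟩
  have hlow0 : ∀ i c, 0 ≤ low i c := fun i c => by rw [hlow]; positivity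
  obtain ⟨al, hal⟩ : ∃ al : Fin r → ℝ, ∀ i, al i = ∑ c, ((f i c).natDegree : ℝ) - 2 :=
    ⟨_, fun i => rfl⟩
  have hd0 : ∀ i c, (1 : ℝ) ≤ (f i c).natDegree := fun i c => by exact_mod_cast hd i c
  obtain ⟨CV, hCV⟩ : ∃ CV : (Fin r → Fin 2 → ℕ) → ℝ, ∀ v, CV v = |CC v| +
      ∑ i, (v i 1 : ℝ) * (|cc i| / (f i 1).natDegree) := ⟨_, fun v => rfl⟩
  have hCV0 : ∀ v, 0 ≤ CV v := fun v => by rw [hCV]; positivity
  obtain ⟨Ri, hRi⟩ : ∃ Ri : Fin r → ℝ, ∀ i, Ri i = low i 0 + (|al i| + |cc i| +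
      (f i 1).natDegree * low i 1) := ⟨_, fun v => rfl⟩
  have hRi0 : ∀ i, 0 ≤ Ri i := fun i => by
    rw [hRi]
    have := hlow0 i 0
    have := hlow0 i 1
    positivity
  refine ⟨∑ v ∈ V, CV v, ∑ i, Ri i, fun M N hM hN => ?_⟩
  have hM1 : (1 : ℝ) ≤ M := by exact_mod_cast hM
  have hfd := fun i => hfin' i (S' i) M hM
  choose ι hι b o0 o1 hadp0 hadp1 hbV hbspan using fun i =>
    hA k (K i) (Zr (f i 0)) (Zr (f i 1)) (p i 0)
      (fun t => M * (p i 0 t).ord (Matrix.of fun l c => Dl i 0 t l (y i c)).det) (p i 1)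
      (fun t => M * (p i 1 t).ord (Matrix.of fun l c => Dl i 1 t l (y i c)).det)
      (VV k (bd (X i) (f i)) (S' i) M 1 (y i))
  obtain ⟨o, ho⟩ : ∃ o : ∀ i, Fin 2 → ι i → ℤ, o = fun i => ![o0 i, o1 i] := ⟨_, rfl⟩
  have hadp : ∀ i c, AdpT (p i c)
      (fun t => M * (p i c t).ord (Matrix.of fun l c' => Dl i c t l (y i c')).det)
      (b i) (o i c) := by
    intro i
    rw [ho]
    exact Fin.forall_fin_two.2 ⟨hadp0 i, hadp1 i⟩
  have hlog : ∀ i c l t, LogGe 1 (p i c t)
      (fun D => b i l * (Matrix.of fun i' j => D i' (y i j)).det ^ M) (o i c l) := by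
    intro i c l t
    refine hDl3 i c t M _ _ (pluri_det _ _) ?_
    right
    have h1 := (hadp i c).le l t
    have h2 : (p i c t).ord (b i l * (Matrix.of fun l c' => Dl i c t l (y i c')).det ^ M) =
        (p i c t).ord (b i l) + M * (p i c t).ord (Matrix.of fun l c' => Dl i c t l (y i c')).det := by
      rw [(p i c t).ord_mul ((hadp i c).ne l) (pow_ne_zero _ (hΔ0 i c t)), (p i c t).ord_pow]
    rw [← h2] at h1
    exact_mod_cast h1
  have hob : ∀ i c l, -low i c ≤ o i c l := by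
    intro i c l
    have h3 : ∀ t : Zr (f i c), -low i c ≤ ((p i c t).ord (b i l) +
        M * (p i c t).ord (Matrix.of fun l c' => Dl i c t l (y i c')).det : ℤ) := by
      intro t
      have h2 : (p i c t).ord (b i l * (Matrix.of fun l c' => Dl i c t l (y i c')).det ^ M) =
          (p i c t).ord (b i l) +
            M * (p i c t).ord (Matrix.of fun l c' => Dl i c t l (y i c')).det := by
        rw [(p i c t).ord_mul ((hadp i c).ne l) (pow_ne_zero _ (hΔ0 i c t)), (p i c t).ord_pow]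
      rw [← h2]
      have h4 : IsSec k (K i) 1 (bd (X i) (f i)) (S' i) M 1
          (fun D => b i l * (Matrix.of fun i' j => D i' (y i j)).det ^ M) := hbV i l
      rcases h4.2.2 (p i c t) (hdiv i _) ⟨c, t.1, hp i c t, t.2⟩ (Dl i c t) (hDl2 i c t) with
        h5 | ⟨e, he, he0, h5⟩
      · exact absurd h5 (mul_ne_zero ((hadp i c).ne l) (pow_ne_zero _ (hΔ0 i c t)))
      · have h6 : |((p i c t).ord e : ℝ)| ≤ low i c := by
          rw [hlow]
          refine (Finset.single_le_sum (f := fun s => |((p i c t).ord s : ℝ)|)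
            (fun s _ => abs_nonneg _) he).trans ?_
          exact Finset.single_le_sum (f := fun t => ∑ s ∈ S' i, |((p i c t).ord s : ℝ)|)
            (fun t _ => by positivity) (Finset.mem_univ t)
        have h7 : -|((p i c t).ord e : ℝ)| ≤ (p i c t).ord e := neg_abs_le _
        rw [Nat.cast_one, one_mul] at h5
        have h8 : (((p i c t).ord e : ℤ) : ℝ) ≤
            ((p i c t).ord (b i l * (Matrix.of fun l c' => Dl i c t l (y i c')).det ^ M) : ℤ) := by
          exact_mod_cast h5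
        linarith
    have h4 := (hadp i c).adp (Pi.single l 1) ⌈-low i c⌉ (fun t => by
      have h5 : ∑ i', (Pi.single l (1 : k) : ι i → k) i' • b i i' = b i l := by
        rw [Finset.sum_eq_single l]
        · rw [Pi.single_eq_same, one_smul]
        · intro l' _ hl'
          rw [Pi.single_eq_of_ne hl', zero_smul]
        · intro h
          exact absurd (Finset.mem_univ _) h
      rw [h5]
      right
      have := Int.ceil_le.2 (h3 t)
      omega) l (by rw [Pi.single_eq_same]; exact one_ne_zero)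
    exact (Int.le_ceil _).trans (by exact_mod_cast h4)
  have hdegb : ∀ i l, ∑ c, ((f i c).natDegree : ℝ) * o i c l ≤ M * al i + cc i := by
    intro i l
    obtain ⟨t⟩ := hTn i 0
    rw [hal]
    refine hcc i M _ (fun c => (o i c l : ℝ)) (hbV i l) (fun c a q hq ha => ?_) fun h0 => ?_
    · have h1 : q = p i c ⟨a, ha⟩ :=
        (hP k (K i) (X i) (hX i)).2.2.2.1 q _ a hq (hp i c ⟨a, ha⟩)
      rw [h1]
      exact hlog i c l ⟨a, ha⟩
    · have h2 := congrFun h0 (Dl i 0 t)
      exact mul_ne_zero ((hadp i 0).ne l) (pow_ne_zero _ (hΔ0 i 0 t)) h2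
  obtain ⟨ω, hω, hsec⟩ := hN
  have hex : ∀ l, ∃ c : (∀ i, ι i) → k, b0 * ω l E = ∑ J, c J • ∏ i, φ i (b i (J i)) ∧
      ∀ J, c J ≠ 0 → ∀ v, Adm A m v → (M : ℝ) - CC v ≤ ∑ i, ∑ c, (v i c : ℝ) * o i c (J i) := by
    intro l
    have h1 := hform M (ω l) (hsec l).1
    have h2 : ω l E ∈ VV k Bd S M 1 Y := by
      change IsSec k L r Bd S M 1 _
      rw [← h1]
      exact hsecL S M (ω l) (hsec l)
    obtain ⟨c, hc⟩ := expand_prod b hbspan (hspan M _ h2)
    refine ⟨c, hc, fun J hJ v hv => ?_⟩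
    exact hCC v hv M (ω l E) (by rw [← h1]; exact hsec l) ι b o hadp c hc J hJ
  obtain ⟨JJ, hJJ⟩ : ∃ JJ : Finset (∀ i, ι i), ∀ J, J ∈ JJ ↔ ∀ v ∈ V,
      (M : ℝ) - CC v ≤ ∑ i, ∑ c, (v i c : ℝ) * o i c (J i) :=
    ⟨Finset.univ.filter fun J => ∀ v ∈ V, (M : ℝ) - CC v ≤ ∑ i, ∑ c, (v i c : ℝ) * o i c (J i),
      fun J => by simp⟩
  have hind := indep_coef hY hE hb0 hω fun l => (hsec l).1
  have hspan' : ∀ l, b0 * ω l E ∈ Submodule.span k
      (Set.range fun J : JJ => ∏ i, φ i (b i (J.1 i))) := by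
    intro l
    obtain ⟨c, hc, hJ⟩ := hex l
    rw [hc]
    refine Submodule.sum_mem _ fun J _ => ?_
    by_cases hJ0 : c J = 0
    · rw [hJ0, zero_smul]
      exact zero_mem _
    · refine Submodule.smul_mem _ _ (Submodule.subset_span ?_)
      exact ⟨⟨J, (hJJ J).2 fun v hv => hJ J hJ0 v (hV v hv)⟩, rfl⟩
  have hN1 : N ≤ JJ.card := by
    have := card_of_span hind hspan'
    rwa [Fintype.card_coe] at this
  refine ⟨JJ.image fun J i => o i 0 (J i), hN1.trans ?_, ?_⟩
  · refine Finset.card_le_mul_card_image _ _ fun t _ => ?_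
    have h1 : {J ∈ JJ | (fun i => o i 0 (J i)) = t} ⊆
        Fintype.piFinset fun i => Finset.univ.filter fun l => o i 0 l = t i := by
      intro J hJ
      rw [Finset.mem_filter] at hJ
      rw [Fintype.mem_piFinset]
      intro i
      exact Finset.mem_filter.2 ⟨Finset.mem_univ _, congrFun hJ.2 i⟩
    refine (Finset.card_le_card h1).trans ?_
    rw [Fintype.card_piFinset]
    refine Finset.prod_le_prod' fun i _ => ?_
    exact hR k (K i) (Zr (f i 0)) (p i 0) _ (fun t x hx =>
      (hP k (K i) (X i) (hX i)).2.2.2.2.2.2 (p i 0 t) x hx) (ι i) (b i) (o i 0) (hadp i 0) (t i) _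
      fun l hl => (Finset.mem_filter.1 hl).2
  · intro t ht
    obtain ⟨J, hJ, rfl⟩ := Finset.mem_image.1 ht
    rw [hJJ] at hJ
    refine ⟨fun i => ?_, fun v hv => ?_⟩
    · have h1 := hob i 0 (J i)
      have h2 := hob i 1 (J i)
      have h3 := hdegb i (J i)
      rw [Fin.sum_univ_two] at h3
      have h4 : Ri i * M ≤ (∑ i, Ri i) * M :=
        mul_le_mul_of_nonneg_right (Finset.single_le_sum (fun i _ => hRi0 i)
          (Finset.mem_univ i)) (by linarith)
      refine le_trans ?_ h4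
      have h5 := hlow0 i 0
      have h6 := hlow0 i 1
      have h7 := hd0 i 0
      have h8 := hd0 i 1
      have h9 : (M : ℝ) * al i ≤ M * |al i| := mul_le_mul_of_nonneg_left (le_abs_self _) (by linarith)
      have h10 : cc i ≤ |cc i| := le_abs_self _
      have h11 : |cc i| ≤ |cc i| * M := le_mul_of_one_le_right (abs_nonneg _) hM1
      have h12 : -(((f i 1).natDegree : ℝ) * low i 1) ≤ (f i 1).natDegree * o i 1 (J i) := by
        have := mul_le_mul_of_nonneg_left h2 (by linarith : (0 : ℝ) ≤ (f i 1).natDegree)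
        linarith
      have h13 : ((f i 1).natDegree : ℝ) * low i 1 ≤ (f i 1).natDegree * low i 1 * M :=
        le_mul_of_one_le_right (by positivity) hM1
      have h14 : low i 0 ≤ low i 0 * M := le_mul_of_one_le_right h5 hM1
      have h15 : ((f i 0).natDegree : ℝ) * o i 0 (J i) ≤ (|al i| + |cc i| +
          (f i 1).natDegree * low i 1) * M := by nlinarith
      have h16 : (0 : ℝ) ≤ (|al i| + |cc i| + (f i 1).natDegree * low i 1) * M := by positivity
      have h17 : (o i 0 (J i) : ℝ) ≤ (|al i| + |cc i| + (f i 1).natDegree * low i 1) * M := by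
        by_cases hs : (o i 0 (J i) : ℝ) ≤ 0
        · linarith
        · push Not at hs
          nlinarith
      rw [hRi, abs_le]
      constructor <;> nlinarith
    · have h1 := hJ v hv
      have h2 : ∑ i, ∑ c, (v i c : ℝ) * o i c (J i) ≤ ∑ i, ((v i 0 : ℝ) * o i 0 (J i) +
          (v i 1 : ℝ) * ((M * al i - (f i 0).natDegree * o i 0 (J i)) / (f i 1).natDegree)) +
          ∑ i, (v i 1 : ℝ) * (|cc i| / (f i 1).natDegree) := by
        rw [← Finset.sum_add_distrib]
        refine Finset.sum_le_sum fun i _ => ?_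
        have h3 := hdegb i (J i)
        rw [Fin.sum_univ_two] at h3 ⊢
        have h8 : (0 : ℝ) < (f i 1).natDegree := lt_of_lt_of_le one_pos (hd0 i 1)
        have h9 : (o i 1 (J i) : ℝ) ≤ (M * al i - (f i 0).natDegree * o i 0 (J i)) /
            (f i 1).natDegree + |cc i| / (f i 1).natDegree := by
          rw [← add_div, le_div_iff₀ h8]
          have := le_abs_self (cc i)
          linarith
        have h10 := mul_le_mul_of_nonneg_left h9 (Nat.cast_nonneg (α := ℝ) (v i 1))
        rw [mul_add] at h10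
        linarith
      have h3 : CV v ≤ ∑ v ∈ V, CV v := Finset.single_le_sum (fun v _ => hCV0 v) hv
      rw [hCV] at h3
      have h4 := le_abs_self (CC v)
      simp only [← hal]
      linarith

end

end Pool.Agent.K1H17.LP
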