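import Pool.Agent.K1H17.LP.Ub
import Pool.Agent.K1H17.LP.Pt

/-! The numerical dimension of a product of lines with a boundary. -/

set_option autoImplicit false
set_option linter.overlappingInstances false
set_option linter.unusedSectionVars false
set_option linter.unusedVariables false

open FF IntermediateField Polynomial Pool.Agent.W619.PQ Pool.Agent.W619.PL Pool.Agent.W619.TW
  Pool.Agent.W603.LV Pool.Agent.W619.Y Pool.Agent.W672.PG Pool.Agent.W824.PG Pool.Agent.Y174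
  Pool.Agent.K1H17.IS Pool.Agent.W460.PG.ONE Pool.Agent.K1H17.TP

namespace Pool.Agent.K1H17.LP

section

variable {k : Type} [Field k] [CharZero k] [IsAlgClosed k] {r s : ℕ}
  {L : Type} [Field L] [Algebra k L] {K : Fin r → Type} [∀ i, Field (K i)]
  [∀ i, Algebra k (K i)] {φ : ∀ i, K i →ₐ[k] L}

theorem real_ineq {d : Fin r → Fin 2 → ℕ} (v : Fin r → Fin 2 → ℕ) (M : ℕ) (C : ℝ)
    (t : Fin r → ℤ) (h : (M : ℝ) - C ≤ ∑ i, ((v i 0 : ℝ) * t i + (v i 1 : ℝ) *
            ((M * (∑ c, (d i c : ℝ) - 2) - d i 0 * t i) / d i 1))) :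
    -C ≤ ∑ i, (ca d v i : ℝ) * t i + M * (cb d v : ℝ) := by
  have h1 : ∑ i, ((v i 0 : ℝ) * t i + (v i 1 : ℝ) *
            ((M * (∑ c, (d i c : ℝ) - 2) - d i 0 * t i) / d i 1)) =
      ∑ i, (ca d v i : ℝ) * t i + M * (cb d v : ℝ) + M := by
    rw [cb]
    push_cast
    rw [mul_sub, mul_one, add_assoc, sub_add_cancel, Finset.mul_sum, ← Finset.sum_add_distrib]
    refine Finset.sum_congr rfl fun i _ => ?_
    rw [ca]
    push_cast
    ring
  rw [h1] at h
  linarith

theorem neg_num (hP : S_PLC) (hMu : S_MUL) (hDg : S_DEG) (hA : S_ADP2) (hR : S_RES)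
    (hEm : S_EMP) (hCn : S_CNT)
    (hL : Algebra.trdeg k L = r) {X : ∀ i, K i} (hX : ∀ i, IsLine k (X i))
    {f : Fin r → Fin 2 → k[X]} (hf : ∀ i c, f i c ≠ 0) (hd : ∀ i c, 1 ≤ (f i c).natDegree)
    (hsq : ∀ i, Squarefree (f i 0 * f i 1)) (hsup : (⨆ i, (φ i).fieldRange) = ⊤)
    {p : ∀ i c, Zr (f i c) → Place k (K i)} (hp : ∀ i c t, AtPt (X i) (p i c t) t.1)
    {A : Fin s → Fin r → Fin 2 → ℤ} {m : Fin s → ℕ} (hm : ∀ j, 0 < m j)
    {δ : Place k L → ℝ} (hδ1 : ∀ w, δ w ≤ 1)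
    (hδ0 : ∀ w : Place k L,
      (∀ i c, (pdiv (X i) (hX i).tr (f i c) (hf i c)).ev (fun x => w.ord (φ i x)) = 0) → δ w ≤ 0)
    (hδm : ∀ (ch : Fin r → Fin 2) (τ : ∀ i, Zr (f i (ch i))) (g : ℕ) (lam : Fin r → ℕ)
      (w : Place k L), 0 < g → Adm A m (fun i c => if c = ch i then g * lam i else 0) →
      IsMono φ r (fun i => p i (ch i) (τ i)) lam w → δ w ≤ 1 - 1 / (g : ℝ)) :
    (Polytope A m (fun i c => (f i c).natDegree) = ∅ → NegB k L r δ) ∧
    ((Polytope A m (fun i c => (f i c).natDegree)).Nonempty →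
      PairNum k L r δ (affDim (Polytope A m fun i c => (f i c).natDegree))) := by
  classical
  obtain ⟨Q, hQ⟩ := ub_main hP hMu hDg hA hR hL hX hf hd hsq hsup hp hδ1 hδ0 hδm
  obtain ⟨V, hV, hPol⟩ := polytope_data (A := A) (d := fun i c => (f i c).natDegree) hm hd
  refine ⟨fun hE S => ?_, fun hne S => ?_⟩
  · obtain ⟨C, R, hCR⟩ := hQ S V hV
    have h0 : Pol (fun v : V => ca (fun i c => (f i c).natDegree) v.1)
        (fun v : V => cb (fun i c => (f i c).natDegree) v.1) = ∅ := by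
      rw [hPol] at hE
      exact Set.image_eq_empty.1 hE
    obtain ⟨M0, hM0⟩ := hEm r V _ _ h0 C
    refine ⟨M0 + 1, fun M hM ω hω => ?_⟩
    by_contra hω0
    obtain ⟨F, hF1, hF2⟩ := hCR M 1 (by omega) ⟨fun _ => ω, by
      rw [Fintype.linearIndependent_iff]
      intro g hg i
      rw [Fin.sum_univ_one] at hg
      rcases smul_eq_zero.1 hg with h | h
      · obtain rfl : i = 0 := Subsingleton.elim _ _
        exact h
      · exact absurd h hω0, fun _ => hω⟩
    have hF : F.Nonempty := by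
      rw [← Finset.card_pos]
      by_contra h
      have h1 : F.card = 0 := by omega
      rw [h1, mul_zero] at hF1
      omega
    obtain ⟨t, ht⟩ := hF
    obtain ⟨v, hv⟩ := hM0 M (by omega) t
    have h1 := real_ineq v.1 M C t ((hF2 t ht).2 v.1 v.2)
    linarith
  · obtain ⟨C, R, hCR⟩ := hQ S V hV
    have h0 : (Pol (fun v : V => ca (fun i c => (f i c).natDegree) v.1)
        (fun v : V => cb (fun i c => (f i c).natDegree) v.1)).Nonempty := by
      rw [hPol] at hne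
      exact Set.image_nonempty.1 hne
    obtain ⟨C', hC'⟩ := hCn r V _ _ h0 C R
    refine ⟨Q * C', fun M N hM hN => ?_⟩
    obtain ⟨F, hF1, hF2⟩ := hCR M N hM hN
    have h1 := hC' M hM F fun t ht => ⟨(hF2 t ht).1, fun v =>
      real_ineq v.1 M C t ((hF2 t ht).2 v.1 v.2)⟩
    rw [hPol, affDim_image, mul_assoc]
    exact hF1.trans (Nat.mul_le_mul_left _ h1)

end

end Pool.Agent.K1H17.LP
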